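import Pool.Agent.Q239.V.RED2

/-!
# V-FLD3: the number of cubic fields
-/

set_option autoImplicit false

namespace Pool.Agent.Q239.V

open Polynomial

/-- the polynomial -/
noncomputable def PF (R : Type) [CommRing R] (a b c d : ℤ) : R[X] :=
  C (a : R) * X ^ 3 + C (b : R) * X ^ 2 + C (c : R) * X + C (d : R)

theorem eval_PF {R : Type} [CommRing R] (a b c d : ℤ) (x : R) :
    (PF R a b c d).eval x = a * x ^ 3 + b * x ^ 2 + c * x + d := by
  simp [PF]

theorem natDegree_PF {R : Type} [CommRing R] [CharZero R] [Nontrivial R] {a b c d : ℤ}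
    (ha : a ≠ 0) : (PF R a b c d).natDegree = 3 := by
  have : (a : R) ≠ 0 := by exact_mod_cast ha
  unfold PF
  compute_degree!

theorem PF_ne {R : Type} [CommRing R] [CharZero R] [Nontrivial R] {a b c d : ℤ}
    (ha : a ≠ 0) : PF R a b c d ≠ 0 := by
  intro h
  have := natDegree_PF (R := R) (b := b) (c := c) (d := d) ha
  rw [h] at this
  simp at this

theorem aeval_PF {K : Type} [Field K] [Algebra ℚ K] (a b c d : ℤ) (x : K) :
    aeval x (PF ℚ a b c d) = a * x ^ 3 + b * x ^ 2 + c * x + d := by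
  simp [PF]

section field

variable {K : Type} [Field K] [NumberField K] {a b c d : ℤ} {x : K}

theorem a_ne (h3 : Module.finrank ℚ K = 3) (htop : IntermediateField.adjoin ℚ {x} = ⊤)
    (hrel : (a : K) * x ^ 3 + b * x ^ 2 + c * x + d = 0) (hD : cdisc a b c d ≠ 0) : a ≠ 0 := by
  have hmin : (minpoly ℚ x).natDegree = 3 := by
    rw [← h3]
    exact (Field.primitive_element_iff_minpoly_natDegree_eq ℚ x).1 htop
  rintro rfl
  have h1 : aeval x (PF ℚ 0 b c d) = 0 := by
    rw [aeval_PF]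
    exact hrel
  have h2 : PF ℚ 0 b c d = 0 := by
    by_contra hne
    have h4 := minpoly.degree_le_of_ne_zero ℚ x hne h1
    have h5 := natDegree_le_natDegree h4
    rw [hmin] at h5
    have h6 : (PF ℚ 0 b c d).natDegree ≤ 2 := by
      unfold PF
      rw [Int.cast_zero, C_0, zero_mul, zero_add]
      compute_degree
    omega
  have hb : b = 0 := by
    have := congrArg (fun p : ℚ[X] => p.coeff 2) h2
    simp only [PF, coeff_add, coeff_C_mul, coeff_X_pow, coeff_X, coeff_C, coeff_zero] at this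
    norm_num at this
    exact this
  have hc : c = 0 := by
    have := congrArg (fun p : ℚ[X] => p.coeff 1) h2
    simp only [PF, coeff_add, coeff_C_mul, coeff_X_pow, coeff_X, coeff_C, coeff_zero] at this
    norm_num at this
    exact this
  apply hD
  rw [hb, hc]
  unfold cdisc
  ring

theorem cf_irr (h3 : Module.finrank ℚ K = 3) (htop : IntermediateField.adjoin ℚ {x} = ⊤)
    (hrel : (a : K) * x ^ 3 + b * x ^ 2 + c * x + d = 0) (ha : a ≠ 0) (X' Y : ℤ)
    (h : cf a b c d X' Y = 0) : X' = 0 ∧ Y = 0 := by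
  have hmin : (minpoly ℚ x).natDegree = 3 := by
    rw [← h3]
    exact (Field.primitive_element_iff_minpoly_natDegree_eq ℚ x).1 htop
  by_cases hY : Y = 0
  · subst hY
    refine ⟨?_, rfl⟩
    unfold cf at h
    simp at h
    exact h.resolve_left ha
  exfalso
  have hYQ : (Y : ℚ) ≠ 0 := by exact_mod_cast hY
  have h1 : aeval x (PF ℚ a b c d) = 0 := by
    rw [aeval_PF]
    exact hrel
  obtain ⟨G, hG⟩ := minpoly.dvd ℚ x h1
  have hne := PF_ne (R := ℚ) (b := b) (c := c) (d := d) ha
  have hx : IsIntegral ℚ x := IsIntegral.of_finite ℚ x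
  have hm0 := minpoly.ne_zero hx
  have hG0 : G ≠ 0 := by
    rintro rfl
    rw [mul_zero] at hG
    exact hne hG
  have hGd : G.natDegree = 0 := by
    have h4 := congrArg natDegree hG
    rw [natDegree_mul hm0 hG0, natDegree_PF ha, hmin] at h4
    omega
  have h5 : (PF ℚ a b c d).eval ((X' : ℚ) / Y) = 0 := by
    rw [eval_PF]
    have h6 : ((cf a b c d X' Y : ℤ) : ℚ) = 0 := by rw [h]; simp
    unfold cf at h6
    push_cast at h6
    field_simp
    linear_combination h6
  rw [hG, eval_mul] at h5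
  have h6 : (minpoly ℚ x).eval ((X' : ℚ) / Y) = 0 := by
    refine (mul_eq_zero.1 h5).resolve_right ?_
    rw [eq_C_of_natDegree_eq_zero hGd, eval_C]
    intro h7
    apply hG0
    rw [eq_C_of_natDegree_eq_zero hGd, h7, C_0]
  have h7 : (minpoly ℚ x).natDegree = 1 := natDegree_eq_of_degree_eq_some
    (degree_eq_one_of_irreducible_of_root (minpoly.irreducible hx) h6)
  omega

end field

theorem exists_rts {a b c d : ℤ} (ha : a ≠ 0) (hD : cdisc a b c d ≠ 0) :
    ∃ y1 y2 y3 : ℂ, Rts a b c d y1 y2 y3 := by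
  classical
  have hne := PF_ne (R := ℂ) (b := b) (c := c) (d := d) ha
  have hspl := IsAlgClosed.splits (PF ℂ a b c d)
  have hcard : (PF ℂ a b c d).roots.card = 3 := by
    rw [← natDegree_PF (R := ℂ) (b := b) (c := c) (d := d) ha]
    exact (splits_iff_card_roots.1 hspl)
  obtain ⟨z1, z2, z3, hz⟩ := Multiset.card_eq_three.1 hcard
  have hl : (PF ℂ a b c d).leadingCoeff = a := by
    rw [leadingCoeff, natDegree_PF ha]
    simp only [PF, coeff_add, coeff_C_mul, coeff_X_pow, coeff_X, coeff_C]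
    norm_num
  have hprod := hspl.eq_prod_roots
  rw [hz, hl] at hprod
  have hFp : PF ℂ a b c d = C (a : ℂ) * ((X - C z1) * (X - C z2) * (X - C z3)) := by
    rw [hprod]
    simp only [Multiset.insert_eq_cons, Multiset.map_cons, Multiset.prod_cons,
      Multiset.map_singleton, Multiset.prod_singleton]
    ring
  have hexp : C (a : ℂ) * ((X - C z1) * (X - C z2) * (X - C z3)) =
      C (a : ℂ) * X ^ 3 + C (-a * (z1 + z2 + z3)) * X ^ 2 +
        C (a * (z1 * z2 + z1 * z3 + z2 * z3)) * X + C (-a * (z1 * z2 * z3)) := by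
    simp only [map_mul, map_add, map_neg]
    ring
  rw [hexp] at hFp
  have hb : (b : ℂ) = -a * (z1 + z2 + z3) := by
    have := congrArg (fun p : ℂ[X] => p.coeff 2) hFp
    simp only [PF, coeff_add, coeff_C_mul, coeff_X_pow, coeff_X, coeff_C] at this
    norm_num at this
    rw [this]
    ring
  have hc : (c : ℂ) = a * (z1 * z2 + z1 * z3 + z2 * z3) := by
    have := congrArg (fun p : ℂ[X] => p.coeff 1) hFp
    simp only [PF, coeff_add, coeff_C_mul, coeff_X_pow, coeff_X, coeff_C] at this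
    norm_num at this
    rw [this]
  have hd : (d : ℂ) = -a * (z1 * z2 * z3) := by
    have := congrArg (fun p : ℂ[X] => p.coeff 0) hFp
    simp only [PF, coeff_add, coeff_C_mul, coeff_X_pow, coeff_X, coeff_C] at this
    norm_num at this
    rw [this]
    ring
  have haC : (a : ℂ) ≠ 0 := by exact_mod_cast ha
  have hroot : ∀ z : ℂ, (a : ℂ) * z ^ 3 + b * z ^ 2 + c * z + d = a * ((z - z1) * (z - z2) * (z - z3)) := by
    intro z
    rw [hb, hc, hd]
    ring
  have hconj : ∀ z : ℂ, (z = z1 ∨ z = z2 ∨ z = z3) → ((starRingEnd ℂ) z = z1 ∨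
      (starRingEnd ℂ) z = z2 ∨ (starRingEnd ℂ) z = z3) := by
    intro z hz'
    have h1 : (a : ℂ) * z ^ 3 + b * z ^ 2 + c * z + d = 0 := by
      rw [hroot]
      rcases hz' with rfl | rfl | rfl <;> simp
    have h2 := congrArg (starRingEnd ℂ) h1
    simp only [map_add, map_mul, map_pow, map_zero, map_intCast] at h2
    rw [hroot] at h2
    rcases mul_eq_zero.1 h2 with h3 | h3
    · exact absurd h3 haC
    rcases mul_eq_zero.1 h3 with h4 | h4
    · rcases mul_eq_zero.1 h4 with h5 | h5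
      · exact Or.inl (sub_eq_zero.1 h5)
      · exact Or.inr (Or.inl (sub_eq_zero.1 h5))
    · exact Or.inr (Or.inr (sub_eq_zero.1 h4))
  have hdisc : ((cdisc a b c d : ℤ) : ℂ) = a ^ 4 * ((z1 - z2) * (z1 - z3) * (z2 - z3)) ^ 2 := by
    unfold cdisc
    push_cast
    rw [hb, hc, hd]
    ring
  have hDC : ((cdisc a b c d : ℤ) : ℂ) ≠ 0 := by exact_mod_cast hD
  have h12 : z1 ≠ z2 := by
    rintro h
    rw [hdisc, h] at hDC
    simp at hDC
  have h13 : z1 ≠ z3 := by
    rintro h
    rw [hdisc, h] at hDC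
    simp at hDC
  have h23 : z2 ≠ z3 := by
    rintro h
    rw [hdisc, h] at hDC
    simp at hDC
  have hcc : ∀ z w : ℂ, (starRingEnd ℂ) z = w → z = (starRingEnd ℂ) w := by
    intro z w h
    rw [← h, Complex.conj_conj]
  by_cases h1 : z1.im = 0
  · have hz1 : (starRingEnd ℂ) z1 = z1 := Complex.conj_eq_iff_im.2 h1
    rcases hconj z2 (Or.inr (Or.inl rfl)) with h2 | h2 | h2
    · exact absurd ((hcc _ _ h2).trans hz1).symm h12
    · refine ⟨z1, z2, z3, hb, hc, hd, h1, Or.inl ⟨Complex.conj_eq_iff_im.1 h2, ?_⟩⟩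
      rcases hconj z3 (Or.inr (Or.inr rfl)) with h4 | h4 | h4
      · exact absurd ((hcc _ _ h4).trans hz1).symm h13
      · exact absurd ((hcc _ _ h4).trans h2).symm h23
      · exact Complex.conj_eq_iff_im.1 h4
    · exact ⟨z1, z2, z3, hb, hc, hd, h1, Or.inr h2.symm⟩
  · rcases hconj z1 (Or.inl rfl) with h2 | h2 | h2
    · exact absurd (Complex.conj_eq_iff_im.1 h2) h1
    · refine ⟨z3, z1, z2, ?_, ?_, ?_, ?_, Or.inr h2.symm⟩
      · rw [hb]; ring
      · rw [hc]; ring
      · rw [hd]; ring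
      · rcases hconj z3 (Or.inr (Or.inr rfl)) with h4 | h4 | h4
        · exact absurd ((hcc _ _ h4).trans h2).symm h23
        · exact absurd ((hcc _ _ h4).trans (hcc _ _ h2).symm).symm h13
        · exact Complex.conj_eq_iff_im.1 h4
    · refine ⟨z2, z1, z3, ?_, ?_, ?_, ?_, Or.inr h2.symm⟩
      · rw [hb]; ring
      · rw [hc]; ring
      · rw [hd]; ring
      · rcases hconj z2 (Or.inr (Or.inl rfl)) with h4 | h4 | h4
        · exact absurd ((hcc _ _ h4).trans h2) h23
        · exact Complex.conj_eq_iff_im.1 h4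
        · exact absurd ((hcc _ _ h4).trans (hcc _ _ h2).symm).symm h12

/-- **a reduced form of a cubic field** -/
theorem reduced (hI : Q273.V.S_INDEX) (K : Type) [Field K] [NumberField K]
    (h3 : Module.finrank ℚ K = 3) : ∃ (a b c d : ℤ) (x : K) (e : ℝ), 1 ≤ e ∧
      e ^ 2 = |(NumberField.discr K : ℝ)| ∧ |(a : ℝ)| * |(d : ℝ)| ≤ 8 * e ∧
      |(b : ℝ)| * |(c : ℝ)| ≤ 72 * e ∧ |(b : ℝ)| ≤ 12 * e ∧ |(c : ℝ)| ≤ 12 * e ∧ a ≠ 0 ∧ d ≠ 0 ∧
      IntermediateField.adjoin ℚ {x} = ⊤ ∧ (a : K) * x ^ 3 + b * x ^ 2 + c * x + d = 0 := by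
  obtain ⟨a, b, c, d, x, htop, hrel, hdisc⟩ := hI K h3
  have hD : cdisc a b c d = NumberField.discr K := hdisc
  have hD0 : cdisc a b c d ≠ 0 := by
    rw [hD]
    exact NumberField.discr_ne_zero K
  have ha := a_ne h3 htop hrel hD0
  obtain ⟨y1, y2, y3, hy⟩ := exists_rts ha hD0
  obtain ⟨p, q, r, t, e, hdet, he1, he2, g1, g2, g3, g4, g5, g6⟩ :=
    hy.reduce hD0 (cf_irr h3 htop hrel ha)
  -- the new generator
  have hxr : (p : K) - r * x ≠ 0 := by
    intro h0
    by_cases hr : r = 0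
    · subst hr
      simp at h0
      subst h0
      simp at hdet
    · have hrK : (r : K) ≠ 0 := by exact_mod_cast hr
      have hx : x = (p : K) / r := by
        field_simp
        linear_combination -h0
      have h1 : cf a b c d p r = 0 := by
        have h2 : ((cf a b c d p r : ℤ) : K) = 0 := by
          unfold cf
          push_cast
          rw [hx] at hrel
          field_simp at hrel
          linear_combination hrel
        exact_mod_cast h2
      exact g5 h1
  obtain ⟨x', hx'⟩ : ∃ x' : K, x' = (t * x - q) / (p - r * x) := ⟨_, rfl⟩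
  have hdetK : (p : K) * t - q * r = 1 := by exact_mod_cast hdet
  have e1 : (p : K) * x' + q = x / (p - r * x) := by
    rw [hx', mul_div_assoc', div_add' _ _ _ hxr]
    congr 1
    linear_combination x * hdetK
  have e2 : (r : K) * x' + t = 1 / (p - r * x) := by
    rw [hx', mul_div_assoc', div_add' _ _ _ hxr]
    congr 1
    linear_combination hdetK
  have hrel' : ((cf a b c d p r : ℤ) : K) * x' ^ 3 + ((cf1 a b c d p q r t : ℤ) : K) * x' ^ 2 +
      ((cf2 a b c d p q r t : ℤ) : K) * x' + ((cf a b c d q t : ℤ) : K) = 0 := by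
    have h1 := cf_sub (a : K) b c d p q r t x' 1
    have h2 : cf (a : K) b c d (p * x' + q * 1) (r * x' + t * 1) = 0 := by
      rw [mul_one, mul_one, e1, e2]
      obtain ⟨u, hu⟩ : ∃ u : K, u = p - r * x := ⟨_, rfl⟩
      rw [← hu] at hxr ⊢
      have h5 : cf (a : K) b c d (x / u) (1 / u) = (a * x ^ 3 + b * x ^ 2 + c * x + d) / u ^ 3 := by
        unfold cf
        field_simp
      rw [h5, hrel, zero_div]
    rw [h2] at h1
    have c1 : ((cf a b c d p r : ℤ) : K) = cf (a : K) b c d p r := by unfold cf; push_cast; ring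
    have c2 : ((cf a b c d q t : ℤ) : K) = cf (a : K) b c d q t := by unfold cf; push_cast; ring
    have c3 : ((cf1 a b c d p q r t : ℤ) : K) = cf1 (a : K) b c d p q r t := by
      unfold cf1; push_cast; ring
    have c4 : ((cf2 a b c d p q r t : ℤ) : K) = cf2 (a : K) b c d p q r t := by
      unfold cf2; push_cast; ring
    rw [c1, c2, c3, c4]
    have h5 : ∀ A B C D z : K, cf A B C D z 1 = A * z ^ 3 + B * z ^ 2 + C * z + D := by
      intro A B C D z
      unfold cf
      ring
    rw [h5] at h1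
    exact h1
  have htop' : IntermediateField.adjoin ℚ {x'} = ⊤ := by
    rw [eq_top_iff, ← htop, IntermediateField.adjoin_simple_le_iff]
    have hm : x' ∈ IntermediateField.adjoin ℚ {x'} := IntermediateField.mem_adjoin_simple_self _ _
    have h1 : x = ((p : K) * x' + q) / (r * x' + t) := by
      rw [e1, e2, div_div_div_cancel_right₀ hxr, div_one]
    rw [h1]
    have hint : ∀ n : ℤ, (n : K) ∈ IntermediateField.adjoin ℚ {x'} := fun n => intCast_mem _ n
    exact div_mem (add_mem (mul_mem (hint p) hm) (hint q)) (add_mem (mul_mem (hint r) hm) (hint t))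
  refine ⟨_, _, _, _, x', e, he1, ?_, g1, g2, g3, g4, g5, g6, htop', hrel'⟩
  rw [he2, hD]

/-! ### counting -/

/-- pairs of integers with a small product -/
noncomputable def PN (N : ℕ) : Finset (ℤ × ℤ) :=
  ((Finset.Icc (-(N : ℤ)) N) ×ˢ (Finset.Icc (-(N : ℤ)) N)).filter fun z => |z.1 * z.2| ≤ N

theorem mem_PN {N : ℕ} {z : ℤ × ℤ} : z ∈ PN N ↔ |z.1| ≤ N ∧ |z.2| ≤ N ∧ |z.1 * z.2| ≤ N := by
  simp only [PN, Finset.mem_filter, Finset.mem_product, Finset.mem_Icc, abs_le, and_assoc]

theorem card_fib {N : ℕ} (m : ℕ) (hm : 1 ≤ m) (s : ℤ) (hs : |s| = m) :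
    ((PN N).filter fun z => z.1 = s).card ≤ 2 * (N / m) + 1 := by
  have h1 : ((PN N).filter fun z => z.1 = s) ⊆
      (Finset.Icc (-((N / m : ℕ) : ℤ)) (N / m : ℕ)).image fun n => (s, n) := by
    intro z hz
    rw [Finset.mem_filter, mem_PN] at hz
    obtain ⟨⟨-, -, h2⟩, h3⟩ := hz
    rw [Finset.mem_image]
    refine ⟨z.2, ?_, by rw [← h3]⟩
    rw [Finset.mem_Icc, ← abs_le]
    rw [h3, abs_mul, hs] at h2
    have h4 : m * z.2.natAbs ≤ N := by
      have : ((m * z.2.natAbs : ℕ) : ℤ) ≤ N := by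
        push_cast
        exact h2
      exact_mod_cast this
    have h5 : z.2.natAbs ≤ N / m := by
      rw [Nat.le_div_iff_mul_le (by omega), mul_comm]
      exact h4
    rw [Int.abs_eq_natAbs]
    exact_mod_cast h5
  refine (Finset.card_le_card h1).trans (Finset.card_image_le.trans ?_)
  rw [Int.card_Icc]
  omega

theorem card_PN (N : ℕ) : (PN N).card ≤ (2 * N + 1) + 2 * ∑ m ∈ Finset.Icc 1 N, (2 * (N / m) + 1) := by
  classical
  have h1 : PN N ⊆ ((PN N).filter fun z => z.1 = 0) ∪ (Finset.Icc 1 N).biUnion fun m =>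
      ((PN N).filter fun z => z.1 = (m : ℤ)) ∪ ((PN N).filter fun z => z.1 = -(m : ℤ)) := by
    intro z hz
    rw [Finset.mem_union, Finset.mem_filter, Finset.mem_biUnion]
    by_cases h0 : z.1 = 0
    · exact Or.inl ⟨hz, h0⟩
    · right
      have h2 := (mem_PN.1 hz).1
      refine ⟨z.1.natAbs, ?_, ?_⟩
      · rw [Finset.mem_Icc]
        rw [Int.abs_eq_natAbs] at h2
        constructor
        · omega
        · exact_mod_cast h2
      · rw [Finset.mem_union, Finset.mem_filter, Finset.mem_filter]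
        rcases Int.natAbs_eq z.1 with h3 | h3
        · exact Or.inl ⟨hz, h3⟩
        · exact Or.inr ⟨hz, h3⟩
  refine (Finset.card_le_card h1).trans ((Finset.card_union_le _ _).trans ?_)
  have h2 : ((PN N).filter fun z => z.1 = 0).card ≤ 2 * N + 1 := by
    have h3 : ((PN N).filter fun z => z.1 = 0) ⊆
        (Finset.Icc (-(N : ℤ)) N).image fun n => ((0 : ℤ), n) := by
      intro z hz
      rw [Finset.mem_filter, mem_PN] at hz
      rw [Finset.mem_image]
      refine ⟨z.2, ?_, by rw [← hz.2]⟩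
      rw [Finset.mem_Icc, ← abs_le]
      exact hz.1.2.1
    refine (Finset.card_le_card h3).trans (Finset.card_image_le.trans ?_)
    rw [Int.card_Icc]
    omega
  refine add_le_add h2 (Finset.card_biUnion_le.trans ?_)
  rw [Finset.mul_sum]
  refine Finset.sum_le_sum fun m hm => ?_
  have hm1 : 1 ≤ m := (Finset.mem_Icc.1 hm).1
  refine (Finset.card_union_le _ _).trans ?_
  have h3 := card_fib (N := N) m hm1 m (by simp)
  have h4 := card_fib (N := N) m hm1 (-m) (by simp)
  omega

theorem card_PN_le {δ : ℝ} (hδ : 0 < δ) {N : ℕ} (hN : 1 ≤ N) :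
    ((PN N).card : ℝ) ≤ 9 * (1 + 1 / δ) * (N : ℝ) ^ (1 + δ) := by
  have hNR : (1 : ℝ) ≤ N := by exact_mod_cast hN
  have h1 : ((PN N).card : ℝ) ≤ (2 * N + 1) + 2 * ∑ m ∈ Finset.Icc 1 N, (2 * ((N : ℝ) / m) + 1) := by
    have h2 : ((PN N).card : ℝ) ≤
        (((2 * N + 1) + 2 * ∑ m ∈ Finset.Icc 1 N, (2 * (N / m) + 1) : ℕ) : ℝ) := by
      exact_mod_cast card_PN N
    refine h2.trans ?_
    push_cast
    gcongr with m hm
    exact Nat.cast_div_le
  have h3 : ∑ m ∈ Finset.Icc 1 N, (2 * ((N : ℝ) / m) + 1) ≤ 2 * N * (1 + Real.log N) + N := by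
    rw [Finset.sum_add_distrib, Finset.sum_const, Nat.card_Icc, ← Finset.mul_sum]
    have h4 : ∑ m ∈ Finset.Icc 1 N, (N : ℝ) / m = N * (harmonic N : ℝ) := by
      rw [harmonic_eq_sum_Icc]
      push_cast
      rw [Finset.mul_sum]
      exact Finset.sum_congr rfl fun m _ => div_eq_mul_inv _ _
    have h5 := harmonic_le_one_add_log N
    rw [h4]
    simp only [add_tsub_cancel_right, nsmul_eq_mul, mul_one]
    have h6 : (N : ℝ) * (harmonic N : ℝ) ≤ N * (1 + Real.log N) :=
      mul_le_mul_of_nonneg_left h5 (by positivity)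
    linarith
  have h7 : Real.log N ≤ (N : ℝ) ^ δ / δ := Real.log_le_rpow_div (by positivity) hδ
  have h8 : (1 : ℝ) ≤ (N : ℝ) ^ δ := Real.one_le_rpow hNR hδ.le
  have h9 : 1 + Real.log N ≤ (1 + 1 / δ) * (N : ℝ) ^ δ := by
    calc 1 + Real.log N ≤ (N : ℝ) ^ δ + (N : ℝ) ^ δ / δ := add_le_add h8 h7
      _ = _ := by ring
  have hlog : 0 ≤ Real.log N := Real.log_nonneg hNR
  calc ((PN N).card : ℝ) ≤ (2 * N + 1) + 2 * (2 * N * (1 + Real.log N) + N) := by linarith
    _ ≤ 9 * (1 + Real.log N) * N := by nlinarith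
    _ ≤ 9 * ((1 + 1 / δ) * (N : ℝ) ^ δ) * N := by gcongr
    _ = _ := by
      rw [Real.rpow_add (by positivity), Real.rpow_one]
      ring

/-- **the number of cubic fields** -/
theorem fld3 (hI : Q273.V.S_INDEX) : Q273.V.S_FLD3 := by
  classical
  intro δ hδ
  refine ⟨3 * (9 * (1 + 1 / δ) * 72 ^ (1 + δ)) ^ 2, by positivity, fun Y F hY hF => ?_⟩
  obtain ⟨N, hN⟩ : ∃ N : ℕ, N = ⌊72 * √Y⌋₊ := ⟨_, rfl⟩
  have hsY : 1 ≤ √Y := Real.one_le_sqrt.2 hY
  have hNle : (N : ℝ) ≤ 72 * √Y := by
    rw [hN]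
    exact Nat.floor_le (by positivity)
  have hNge : ∀ n : ℕ, (n : ℝ) ≤ 72 * √Y → n ≤ N := by
    intro n hn
    rw [hN]
    exact Nat.le_floor hn
  have hN1 : 1 ≤ N := hNge 1 (by push_cast; linarith)
  have key : ∀ K ∈ F, ∃ (s : (ℤ × ℤ) × (ℤ × ℤ)) (x : ℂ), s ∈ PN N ×ˢ PN N ∧ s.1.1 ≠ 0 ∧
      (s.1.1 : ℂ) * x ^ 3 + s.2.1 * x ^ 2 + s.2.2 * x + s.1.2 = 0 ∧
      K = IntermediateField.adjoin ℚ {x} := by
    intro K hK
    obtain ⟨hNF, h3, hdisc⟩ := hF K hK
    obtain ⟨a, b, c, d, x, e, he1, he2, g1, g2, g3, g4, ha, hd, htop, hrel⟩ := reduced hI K h3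
    have heY : e ≤ √Y := by
      apply Real.le_sqrt_of_sq_le
      rw [he2]
      exact hdisc
    have ha1 : (1 : ℝ) ≤ |(a : ℝ)| := by exact_mod_cast Int.one_le_abs ha
    have hd1 : (1 : ℝ) ≤ |(d : ℝ)| := by exact_mod_cast Int.one_le_abs hd
    have hZ : ∀ z : ℤ, |(z : ℝ)| ≤ 72 * e → |z| ≤ N := by
      intro z hz
      have h5 : ((z.natAbs : ℕ) : ℝ) ≤ 72 * √Y := by
        rw [Nat.cast_natAbs, Int.cast_abs]
        linarith
      have h6 := hNge _ h5
      rw [Int.abs_eq_natAbs]
      exact_mod_cast h6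
    refine ⟨((a, d), (b, c)), (x : ℂ), ?_, ha, ?_, ?_⟩
    · rw [Finset.mem_product, mem_PN, mem_PN]
      refine ⟨⟨hZ a ?_, hZ d ?_, hZ (a * d) ?_⟩, ⟨hZ b ?_, hZ c ?_, hZ (b * c) ?_⟩⟩
      · nlinarith
      · nlinarith
      · push_cast
        rw [abs_mul]
        linarith
      · linarith
      · linarith
      · push_cast
        rw [abs_mul]
        exact g2
    · have := congrArg (algebraMap K ℂ) hrel
      rw [map_zero] at this
      simp only [map_add, map_mul, map_pow, map_intCast] at this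
      exact this
    · apply le_antisymm
      · intro z hz
        have h5 : (⟨z, hz⟩ : K) ∈ IntermediateField.adjoin ℚ {x} := by
          rw [htop]
          exact IntermediateField.mem_top
        obtain ⟨r, t, hrt⟩ := (IntermediateField.mem_adjoin_simple_iff ℚ _).1 h5
        have h6 : ∀ p : ℚ[X], algebraMap K ℂ (aeval x p) = aeval (x : ℂ) p := by
          intro p
          have h7 : algebraMap K ℂ (eval₂ (algebraMap ℚ K) x p) =
              eval₂ ((algebraMap K ℂ).comp (algebraMap ℚ K)) (x : ℂ) p :=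
            hom_eval₂ p (algebraMap ℚ K) (algebraMap K ℂ) x
          have h8 : (algebraMap K ℂ).comp (algebraMap ℚ K) = algebraMap ℚ ℂ := RingHom.ext_rat _ _
          rw [h8] at h7
          exact h7
        have h9 : z = algebraMap K ℂ ⟨z, hz⟩ := rfl
        rw [h9, hrt, map_div₀, h6, h6]
        exact (IntermediateField.mem_adjoin_simple_iff ℚ _).2 ⟨r, t, rfl⟩
      · rw [IntermediateField.adjoin_simple_le_iff]
        exact x.2
  choose! s x hs ha hrel hadj using key
  have hcard : F.card ≤ 3 * (PN N ×ˢ PN N).card := by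
    refine Finset.card_le_mul_card_image_of_maps_to (f := s) (fun K hK => hs K hK) 3
      fun z hz => ?_
    by_cases hz0 : z.1.1 = 0
    · have h5 : F.filter (fun K => s K = z) = ∅ := by
        rw [Finset.filter_eq_empty_iff]
        intro K hK h6
        apply ha K hK
        rw [h6]
        exact hz0
      rw [h5, Finset.card_empty]
      omega
    · have hinj : Set.InjOn x (F.filter fun K => s K = z : Finset _) := by
        intro K hK K' hK' h6
        rw [Finset.mem_coe, Finset.mem_filter] at hK hK'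
        rw [hadj K hK.1, hadj K' hK'.1, h6]
      have hsub : (F.filter fun K => s K = z).image x ⊆
          (PF ℂ z.1.1 z.2.1 z.2.2 z.1.2).roots.toFinset := by
        intro w hw
        rw [Finset.mem_image] at hw
        obtain ⟨K, hK, rfl⟩ := hw
        rw [Finset.mem_filter] at hK
        rw [Multiset.mem_toFinset, mem_roots (PF_ne hz0), IsRoot, eval_PF]
        have := hrel K hK.1
        rw [hK.2] at this
        exact this
      rw [← Finset.card_image_of_injOn hinj]
      refine (Finset.card_le_card hsub).trans ((Multiset.toFinset_card_le _).trans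
        ((card_roots' _).trans ?_))
      rw [natDegree_PF hz0]
  have h5 : (F.card : ℝ) ≤ 3 * ((PN N).card : ℝ) ^ 2 := by
    rw [Finset.card_product] at hcard
    have : (F.card : ℝ) ≤ ((3 * ((PN N).card * (PN N).card) : ℕ) : ℝ) := by exact_mod_cast hcard
    push_cast at this
    rw [pow_two]
    exact this
  have h6 := card_PN_le hδ hN1
  have h7 : (N : ℝ) ^ (1 + δ) ≤ (72 * √Y) ^ (1 + δ) :=
    Real.rpow_le_rpow (by positivity) hNle (by positivity)
  calc (F.card : ℝ) ≤ 3 * ((PN N).card : ℝ) ^ 2 := h5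
    _ ≤ 3 * (9 * (1 + 1 / δ) * (72 * √Y) ^ (1 + δ)) ^ 2 := by
        gcongr
        exact h6.trans (by gcongr)
    _ = _ := by
        rw [Real.mul_rpow (by norm_num) (by positivity)]
        have h8 : ((√Y) ^ (1 + δ)) ^ 2 = Y ^ (1 + δ) := by
          rw [← Real.rpow_natCast, ← Real.rpow_mul (by positivity), Real.sqrt_eq_rpow,
            ← Real.rpow_mul (by positivity)]
          congr 1
          push_cast
          ring
        rw [← h8]
        ring

end Pool.Agent.Q239.V
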