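import Pool.Agent.Q273.V.Stm

/-!
# V-INDEX: the index form of a cubic field
-/

set_option autoImplicit false

namespace Pool.Agent.Q239.V

open Module NumberField

/-- integral bases which contain `1` -/
def Tri {O : Type} [CommRing O] (u v : O) : Prop :=
  (∀ y : O, ∃ a b c : ℤ, y = a + b * u + c * v) ∧
  ∀ a b c : ℤ, (a : O) + b * u + c * v = 0 → a = 0 ∧ b = 0 ∧ c = 0

theorem Tri.shift {O : Type} [CommRing O] {u v : O} (h : Tri u v) (t s : ℤ) :
    Tri (u - t) (v - s) := by
  refine ⟨fun y => ?_, fun a b c e => ?_⟩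
  · obtain ⟨a, b, c, e⟩ := h.1 y
    refine ⟨a + b * t + c * s, b, c, ?_⟩
    rw [e]
    push_cast
    ring
  · obtain ⟨h1, h2, h3⟩ := h.2 (a - b * t - c * s) b c (by
      rw [← e]
      push_cast
      ring)
    subst h2 h3
    simp at h1
    exact ⟨h1, rfl, rfl⟩

theorem rat_int {K : Type} [Field K] [NumberField K] {y : 𝓞 K} {n m : ℤ} (hn : n ≠ 0)
    (h : (n : 𝓞 K) * y = m) : ∃ k : ℤ, y = k := by
  have h1 : ((y : 𝓞 K) : K) = algebraMap ℚ K (m / n) := by
    have h2 := congrArg (algebraMap (𝓞 K) K) h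
    rw [map_mul, map_intCast, map_intCast] at h2
    have hn' : (n : K) ≠ 0 := by exact_mod_cast hn
    rw [map_div₀, map_intCast, map_intCast, eq_div_iff hn', mul_comm]
    exact h2
  have h3 : IsIntegral ℤ (algebraMap ℚ K (m / n)) := by
    rw [← h1]
    exact y.isIntegral_coe
  have h4 : IsIntegral ℤ ((m : ℚ) / n) := (isIntegral_algebraMap_iff (algebraMap ℚ K).injective).1 h3
  obtain ⟨k, hk⟩ := IsIntegrallyClosed.isIntegral_iff.1 h4
  refine ⟨k, ?_⟩
  apply RingOfIntegers.ext
  rw [h1, ← hk]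
  simp

/-- lifting a basis of a quotient -/
theorem tri_of_quot {O : Type} [CommRing O] [CharZero O] {Q : Type} [AddCommGroup Q] (π : O →+ Q)
    (hπ : Function.Surjective π) (hker : ∀ y, π y = 0 ↔ ∃ k : ℤ, y = k) (b : Basis (Fin 2) ℤ Q) :
    ∃ u v : O, Tri u v := by
  obtain ⟨u, hu⟩ := hπ (b 0)
  obtain ⟨v, hv⟩ := hπ (b 1)
  have hz : ∀ (n : ℤ) (y : O), π (n * y) = n • π y := by
    intro n y
    rw [← zsmul_eq_mul, map_zsmul]
  refine ⟨u, v, fun y => ?_, fun a β γ e => ?_⟩
  · have h1 := b.sum_repr (π y)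
    rw [Fin.sum_univ_two, ← hu, ← hv, ← hz, ← hz, ← map_add, eq_comm, ← sub_eq_zero, ← map_sub,
      hker] at h1
    obtain ⟨k, hk⟩ := h1
    refine ⟨k, b.repr (π y) 0, b.repr (π y) 1, ?_⟩
    rw [← hk]
    ring
  · have h1 : π ((a : O) + β * u + γ * v) = 0 := by
      rw [e, map_zero]
    have h2 : π (a : O) = 0 := (hker _).2 ⟨a, rfl⟩
    rw [map_add, map_add, h2, zero_add, hz, hz, hu, hv] at h1
    have h4 := b.linearIndependent
    rw [Fintype.linearIndependent_iff] at h4
    have h5 := h4 ![β, γ] (by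
      rw [Fin.sum_univ_two]
      exact h1)
    have hβ : β = 0 := h5 0
    have hγ : γ = 0 := h5 1
    subst hβ hγ
    simp at e
    exact ⟨e, rfl, rfl⟩

theorem exists_tri (K : Type) [Field K] [NumberField K] (h3 : Module.finrank ℚ K = 3) :
    ∃ u v : 𝓞 K, Tri u v := by
  classical
  let S : Submodule ℤ (𝓞 K) := Submodule.span ℤ {1}
  have hS : ∀ y : 𝓞 K, y ∈ S ↔ ∃ k : ℤ, y = k := by
    intro y
    rw [Submodule.mem_span_singleton]
    constructor
    · rintro ⟨k, rfl⟩
      exact ⟨k, by simp⟩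
    · rintro ⟨k, rfl⟩
      exact ⟨k, by simp⟩
  have hmk : ∀ y : 𝓞 K, (Submodule.Quotient.mk y : 𝓞 K ⧸ S) = 0 ↔ ∃ k : ℤ, y = k := by
    intro y
    rw [Submodule.Quotient.mk_eq_zero, hS]
  have htf : Module.IsTorsionFree ℤ (𝓞 K ⧸ S) := by
    rw [Module.isTorsionFree_iff_smul_eq_zero]
    intro n q hq
    obtain ⟨y, rfl⟩ := Submodule.Quotient.mk_surjective S q
    by_cases hn : n = 0
    · exact Or.inl hn
    right
    rw [← Submodule.Quotient.mk_smul, hmk] at hq
    obtain ⟨m, hm⟩ := hq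
    rw [hmk]
    refine rat_int hn (m := m) ?_
    rw [← hm, zsmul_eq_mul]
  have hfree : Module.Free ℤ (𝓞 K ⧸ S) := Module.free_iff_isTorsionFree.2 htf
  have hrk : Module.finrank ℤ (𝓞 K) = 3 := by
    rw [RingOfIntegers.rank, h3]
  have hrS : Module.finrank ℤ S = 1 := by
    have e := LinearEquiv.toSpanNonzeroSingleton ℤ (𝓞 K) 1 one_ne_zero
    rw [← e.finrank_eq, Module.finrank_self]
  have hrQ : Module.finrank ℤ (𝓞 K ⧸ S) = 2 := by
    have := S.finrank_quotient_add_finrank
    omega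
  let b : Basis (Fin 2) ℤ (𝓞 K ⧸ S) := finBasisOfFinrankEq ℤ (𝓞 K ⧸ S) hrQ
  exact tri_of_quot (S.mkQ.toAddMonoidHom) (Submodule.mkQ_surjective S) (fun y => hmk y) b

section ring

variable {O : Type} [CommRing O] {u v : O}

theorem Tri.eq (h : Tri u v) {a b c a' b' c' : ℤ} (e : (a : O) + b * u + c * v = a' + b' * u + c' * v) :
    a = a' ∧ b = b' ∧ c = c' := by
  obtain ⟨h1, h2, h3⟩ := h.2 (a - a') (b - b') (c - c') (by
    push_cast
    linear_combination e)
  omega

/-- **normal form** -/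
theorem Tri.normal (h : Tri u v) : ∃ (u v : O) (a b c d : ℤ), Tri u v ∧ u * v = -(a * d : ℤ) ∧
    u ^ 2 = -(a * c : ℤ) - b * u + a * v ∧ v ^ 2 = -(b * d : ℤ) - d * u + c * v := by
  obtain ⟨r, s, t, e⟩ := h.1 (u * v)
  have h' := h.shift t s
  obtain ⟨U, hU⟩ : ∃ U : O, U = u - t := ⟨_, rfl⟩
  obtain ⟨V, hV⟩ : ∃ V : O, V = v - s := ⟨_, rfl⟩
  rw [← hU, ← hV] at h'
  obtain ⟨n, hn⟩ : ∃ n : ℤ, n = r + s * t := ⟨_, rfl⟩
  have huv : U * V = n := by
    rw [hU, hV, hn]
    push_cast
    linear_combination e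
  obtain ⟨m, b1, a, e1⟩ := h'.1 (U ^ 2)
  obtain ⟨l, d1, c, e2⟩ := h'.1 (V ^ 2)
  obtain ⟨b, hb⟩ : ∃ b : ℤ, b = -b1 := ⟨_, rfl⟩
  obtain ⟨d, hd⟩ : ∃ d : ℤ, d = -d1 := ⟨_, rfl⟩
  have hb' : b1 = -b := by omega
  have hd' : d1 = -d := by omega
  subst hb' hd'
  push_cast at e1 e2
  -- associativity
  have h1 := h'.eq (a := -(b * n) + a * l) (b := -(a * d)) (c := m + a * c) (a' := 0) (b' := n)
    (c' := 0) (by
    push_cast
    linear_combination (-V) * e1 + (b + U) * huv - a * e2)
  have h2 := h'.eq (a := -(d * m) + c * n) (b := l + b * d) (c := -(a * d)) (a' := 0) (b' := 0)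
    (c' := n) (by
    push_cast
    linear_combination (-U) * e2 + (V - c) * huv + d * e1)
  obtain ⟨-, h3, h4⟩ := h1
  obtain ⟨-, h5, -⟩ := h2
  refine ⟨U, V, a, b, c, d, h', ?_, ?_, ?_⟩
  · rw [huv, ← h3]
    push_cast
    ring
  · have h6 : m = -(a * c) := by omega
    rw [e1, h6]
    push_cast
    ring
  · have h6 : l = -(b * d) := by omega
    rw [e2, h6]
    push_cast
    ring

variable {a b c d : ℤ}

/-- the basis -/
noncomputable def Tri.basis (h : Tri u v) : Basis (Fin 3) ℤ O :=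
  Basis.mk (v := ![1, u, v]) (by
    rw [Fintype.linearIndependent_iff]
    intro g hg
    rw [Fin.sum_univ_three] at hg
    simp only [Matrix.cons_val_zero, Matrix.cons_val_one, Matrix.cons_val, zsmul_eq_mul,
      mul_one] at hg
    obtain ⟨h1, h2, h3⟩ := h.2 _ _ _ hg
    intro i
    fin_cases i
    · exact h1
    · exact h2
    · exact h3) (by
    rintro y -
    obtain ⟨a, b, c, e⟩ := h.1 y
    rw [Submodule.mem_span_range_iff_exists_fun]
    refine ⟨![a, b, c], ?_⟩
    rw [Fin.sum_univ_three, e]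
    simp [zsmul_eq_mul])

theorem Tri.basis_repr (h : Tri u v) (a b c : ℤ) (i : Fin 3) :
    h.basis.repr ((a : O) + b * u + c * v) i = ![a, b, c] i := by
  have h1 : (a : O) + b * u + c * v = ∑ i, ![a, b, c] i • h.basis i := by
    rw [Fin.sum_univ_three]
    simp [Tri.basis, zsmul_eq_mul]
  rw [h1, Basis.repr_sum_self]

theorem Tri.b0 (h : Tri u v) : h.basis 0 = 1 := by simp [Tri.basis]
theorem Tri.b1 (h : Tri u v) : h.basis 1 = u := by simp [Tri.basis]
theorem Tri.b2 (h : Tri u v) : h.basis 2 = v := by simp [Tri.basis]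

theorem Tri.trace (h : Tri u v) {y : O} {c00 c01 c02 c10 c11 c12 c20 c21 c22 : ℤ}
    (h0 : y = c00 + c01 * u + c02 * v) (h1 : y * u = c10 + c11 * u + c12 * v)
    (h2 : y * v = c20 + c21 * u + c22 * v) : Algebra.trace ℤ O y = c00 + c11 + c22 := by
  rw [Algebra.trace_eq_matrix_trace h.basis, Matrix.trace_fin_three,
    Algebra.leftMulMatrix_eq_repr_mul, Algebra.leftMulMatrix_eq_repr_mul,
    Algebra.leftMulMatrix_eq_repr_mul, h.b0, h.b1, h.b2, mul_one, h1, h2]
  nth_rewrite 1 [h0]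
  rw [h.basis_repr, h.basis_repr, h.basis_repr]
  rfl

theorem Tri.trace_lin (h : Tri u v) (α β γ : ℤ) : Algebra.trace ℤ O (α + β * u + γ * v) =
    3 * α + β * Algebra.trace ℤ O u + γ * Algebra.trace ℤ O v := by
  have h1 : Algebra.trace ℤ O 1 = 3 := by
    rw [h.trace (y := 1) (c00 := 1) (c01 := 0) (c02 := 0) (c10 := 0) (c11 := 1) (c12 := 0)
      (c20 := 0) (c21 := 0) (c22 := 1) (by simp) (by simp) (by simp)]
    norm_num
  have h2 : (α : O) + β * u + γ * v = α • (1 : O) + β • u + γ • v := by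
    simp [zsmul_eq_mul]
  rw [h2, map_add, map_add, map_smul, map_smul, map_smul, h1]
  simp only [smul_eq_mul]
  ring

theorem Tri.disc (h : Tri u v) {a b c d : ℤ} (huv : u * v = -(a * d : ℤ))
    (hu : u ^ 2 = -(a * c : ℤ) - b * u + a * v) (hv : v ^ 2 = -(b * d : ℤ) - d * u + c * v) :
    Algebra.discr ℤ h.basis = b ^ 2 * c ^ 2 - 4 * a * c ^ 3 - 4 * b ^ 3 * d -
      27 * a ^ 2 * d ^ 2 + 18 * a * b * c * d := by
  have hu' : u * u = ((-(a * c) : ℤ) : O) + ((-b : ℤ) : O) * u + a * v := by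
    rw [← pow_two, hu]
    push_cast
    ring
  have hv' : v * v = ((-(b * d) : ℤ) : O) + ((-d : ℤ) : O) * u + c * v := by
    rw [← pow_two, hv]
    push_cast
    ring
  have huv' : u * v = ((-(a * d) : ℤ) : O) + ((0 : ℤ) : O) * u + ((0 : ℤ) : O) * v := by
    rw [huv]
    push_cast
    ring
  have hvu' : v * u = ((-(a * d) : ℤ) : O) + ((0 : ℤ) : O) * u + ((0 : ℤ) : O) * v := by
    rw [mul_comm, huv']
  have tu : Algebra.trace ℤ O u = -b := by
    rw [h.trace (y := u) (c00 := 0) (c01 := 1) (c02 := 0) (by simp) hu' huv']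
    ring
  have tv : Algebra.trace ℤ O v = c := by
    rw [h.trace (y := v) (c00 := 0) (c01 := 0) (c02 := 1) (by simp) hvu' hv']
    ring
  have t1 : Algebra.trace ℤ O 1 = 3 := by
    have := h.trace_lin 1 0 0
    simpa using this
  rw [Algebra.discr_def, Matrix.det_fin_three]
  simp only [Algebra.traceMatrix_apply, Algebra.traceForm_apply, h.b0, h.b1, h.b2, one_mul, mul_one]
  rw [hu', hv', huv', hvu', h.trace_lin, h.trace_lin, h.trace_lin, tu, tv, t1]
  ring

end ring

/-- **INDEX** -/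
theorem index : Q273.V.S_INDEX := by
  intro K _ _ h3
  obtain ⟨u0, v0, h0⟩ := exists_tri K h3
  obtain ⟨u, v, a, b, c, d, h, huv, hu, hv⟩ := h0.normal
  obtain ⟨U, hU⟩ : ∃ U : K, U = algebraMap (𝓞 K) K u := ⟨_, rfl⟩
  obtain ⟨V, hV⟩ : ∃ V : K, V = algebraMap (𝓞 K) K v := ⟨_, rfl⟩
  have eUV : U * V = -(a * d) := by
    have := congrArg (algebraMap (𝓞 K) K) huv
    rw [map_mul, map_neg, map_intCast, ← hU, ← hV] at this
    rw [this]
    push_cast
    ring
  have eU : U ^ 2 = -(a * c) - b * U + a * V := by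
    have := congrArg (algebraMap (𝓞 K) K) hu
    rw [map_pow, map_add, map_sub, map_neg, map_mul, map_mul, map_intCast, map_intCast,
      map_intCast, ← hU, ← hV] at this
    rw [this]
    push_cast
    ring
  have hirr : ∀ m n : ℤ, (m : K) * U = n → m = 0 := by
    intro m n e
    have h1 : (m : 𝓞 K) * u = n := by
      apply RingOfIntegers.ext
      have h2 : algebraMap (𝓞 K) K ((m : 𝓞 K) * u) = algebraMap (𝓞 K) K (n : 𝓞 K) := by
        rw [map_mul, map_intCast, map_intCast, ← hU, e]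
      exact h2
    have h2 := h.2 (-n) m 0 (by
      push_cast
      rw [h1]
      ring)
    exact h2.2.1
  have ha : a ≠ 0 := by
    intro ha
    have h1 : u * (u + b) = 0 := by
      have h2 : u * u = u ^ 2 := by ring
      rw [mul_add, h2, hu, ha]
      push_cast
      ring
    rcases mul_eq_zero.1 h1 with h2 | h2
    · have := h.2 0 1 0 (by rw [h2]; simp)
      omega
    · have := h.2 b 1 0 (by
        push_cast
        linear_combination h2)
      omega
  have haK : (a : K) ≠ 0 := by exact_mod_cast ha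
  refine ⟨a, b, c, d, U / a, ?_, ?_, ?_⟩
  · have h1 : Nat.Prime (Module.finrank ℚ K) := by
      rw [h3]
      exact Nat.prime_three
    have h2 := IntermediateField.isSimpleOrder_of_finrank_prime ℚ K h1
    rcases h2.eq_bot_or_eq_top (IntermediateField.adjoin ℚ {U / a}) with h4 | h4
    · exfalso
      have h5 : U / a ∈ IntermediateField.adjoin ℚ {U / a} :=
        IntermediateField.mem_adjoin_simple_self _ _
      rw [h4, IntermediateField.mem_bot] at h5
      obtain ⟨r, hr⟩ := h5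
      have h6 : (r.den : K) * U = ((r.num * a : ℤ) : K) := by
        have h7 : U = algebraMap ℚ K r * a := by
          rw [hr]
          field_simp
        have h8 : (algebraMap ℚ K r) * r.den = r.num := by
          have h9 : algebraMap ℚ K (r * r.den) = algebraMap ℚ K r.num := by
            rw [Rat.mul_den_eq_num]
          rw [map_mul, map_natCast, map_intCast] at h9
          exact h9
        rw [h7]
        push_cast
        linear_combination (a : K) * h8
      have h7 := hirr (r.den : ℤ) (r.num * a) (by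
        rw [← h6]
        push_cast
        ring)
      have := r.den_nz
      omega
    · exact h4
  · field_simp
    linear_combination U * eU + a * eUV
  · rw [← NumberField.discr_eq_discr K h.basis, h.disc huv hu hv]

end Pool.Agent.Q239.V
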