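import Pool.Agent.Q273.V.Stm

/-!
# V-MIN: minimal polynomials of elements of number fields
-/

set_option autoImplicit false

namespace Pool.Agent.Q239.V

open Polynomial

theorem lc_ge {s : ℕ} {K : Type} [Field K] {f : ℤ[X]} {x : K} (h : Q273.V.IsMin s f x) :
    1 ≤ Q273.V.lc f := by
  have h0 : f ≠ 0 := h.1.ne_zero
  have h1 : f.leadingCoeff ≠ 0 := leadingCoeff_ne_zero.2 h0
  unfold Q273.V.lc
  have h2 : (1 : ℤ) ≤ |f.leadingCoeff| := Int.one_le_abs h1
  exact_mod_cast h2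

theorem prim {s : ℕ} (hs : 1 ≤ s) {K : Type} [Field K] {f : ℤ[X]} {x : K}
    (h : Q273.V.IsMin s f x) : f.IsPrimitive := by
  refine h.1.isPrimitive ?_
  rw [h.2.1]
  omega

theorem irr {s : ℕ} (hs : 1 ≤ s) {K : Type} [Field K] {f : ℤ[X]} {x : K}
    (h : Q273.V.IsMin s f x) : Irreducible (f.map (Int.castRingHom ℚ)) :=
  (IsPrimitive.Int.irreducible_iff_irreducible_map_cast (prim hs h)).1 h.1

theorem minpoly_eq {s : ℕ} (hs : 1 ≤ s) {K : Type} [Field K] [CharZero K] {f : ℤ[X]} {x : K}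
    (h : Q273.V.IsMin s f x) :
    minpoly ℚ x = C ((f.leadingCoeff : ℚ)⁻¹) * f.map (Int.castRingHom ℚ) := by
  have h1 := irr hs h
  have h2 : aeval x (f.map (Int.castRingHom ℚ)) = 0 := by
    have h3 : Int.castRingHom ℚ = algebraMap ℤ ℚ := rfl
    rw [h3, aeval_map_algebraMap]
    exact h.2.2
  have h4 := minpoly.eq_of_irreducible h1 h2
  have hinj : Function.Injective (Int.castRingHom ℚ) := Int.cast_injective
  rw [leadingCoeff_map_of_injective hinj] at h4
  rw [← h4, mul_comm]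
  rfl

theorem root_of {K : Type} [Field K] {f : ℤ[X]} {x : K} (h : aeval x f = 0) (σ : K →+* ℂ) :
    (f.map (Int.castRingHom ℂ)).eval (σ x) = 0 := by
  rw [eval_map]
  have h1 : σ (eval₂ (algebraMap ℤ K) x f) = eval₂ (σ.comp (algebraMap ℤ K)) (σ x) f :=
    hom_eval₂ f (algebraMap ℤ K) σ x
  have h2 : σ.comp (algebraMap ℤ K) = Int.castRingHom ℂ := RingHom.ext_int _ _
  rw [← h2, ← h1]
  have h3 : eval₂ (algebraMap ℤ K) x f = 0 := h
  rw [h3, map_zero]

/-- the element generates the field -/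
theorem adj_top {s : ℕ} (hs : 1 ≤ s) {K : Type} [Field K] [NumberField K] {f : ℤ[X]} {x : K}
    (hfin : Module.finrank ℚ K = s) (h : Q273.V.IsMin s f x) :
    IntermediateField.adjoin ℚ {x} = ⊤ := by
  rw [Field.primitive_element_iff_minpoly_natDegree_eq, minpoly_eq hs h, hfin]
  have hf0 : f ≠ 0 := h.1.ne_zero
  have hl0 : (f.leadingCoeff : ℚ) ≠ 0 := by exact_mod_cast leadingCoeff_ne_zero.2 hf0
  rw [natDegree_C_mul (inv_ne_zero hl0), natDegree_map_eq_of_injective Int.cast_injective]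
  exact h.2.1

theorem inj_of_top {K : Type} [Field K] [NumberField K] {x : K}
    (h : IntermediateField.adjoin ℚ {x} = ⊤) : Function.Injective (fun σ : K →+* ℂ => σ x) := by
  intro σ τ hst
  have hst' : σ x = τ x := hst
  have h1 : ∀ y ∈ IntermediateField.adjoin ℚ {x}, σ y = τ y := by
    intro y hy
    rw [IntermediateField.mem_adjoin_simple_iff] at hy
    obtain ⟨r, t, rfl⟩ := hy
    have h2 : ∀ (ρ : K →+* ℂ) (p : ℚ[X]), ρ (aeval x p) = eval₂ (algebraMap ℚ ℂ) (ρ x) p := by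
      intro ρ p
      have h3 : ρ (eval₂ (algebraMap ℚ K) x p) = eval₂ (ρ.comp (algebraMap ℚ K)) (ρ x) p :=
        hom_eval₂ p (algebraMap ℚ K) ρ x
      have h4 : ρ.comp (algebraMap ℚ K) = algebraMap ℚ ℂ := RingHom.ext_rat _ _
      rw [h4] at h3
      exact h3
    rw [map_div₀, map_div₀, h2, h2, h2, h2, hst']
  ext y
  exact h1 y (by rw [h]; exact IntermediateField.mem_top)

open scoped Classical in
theorem roots_eq {s : ℕ} (hs : 1 ≤ s) {K : Type} [Field K] [NumberField K] {f : ℤ[X]} {x : K}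
    (hfin : Module.finrank ℚ K = s) (h : Q273.V.IsMin s f x) :
    (f.map (Int.castRingHom ℂ)).roots = (Finset.univ.image fun σ : K →+* ℂ => σ x).val := by
  have hinj := inj_of_top (adj_top hs hfin h)
  have hf0 : f ≠ 0 := h.1.ne_zero
  have hF0 : f.map (Int.castRingHom ℂ) ≠ 0 := (Polynomial.map_ne_zero_iff Int.cast_injective).2 hf0
  symm
  apply Multiset.eq_of_le_of_card_le
  · rw [Multiset.le_iff_subset (Finset.nodup _)]
    intro z hz
    rw [Finset.mem_val, Finset.mem_image] at hz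
    obtain ⟨σ, -, rfl⟩ := hz
    rw [mem_roots hF0]
    exact root_of h.2.2 σ
  · rw [Finset.card_val, Finset.card_image_of_injective _ hinj, Finset.card_univ,
      NumberField.Embeddings.card, hfin]
    refine (card_roots' _).trans ?_
    rw [natDegree_map_eq_of_injective Int.cast_injective, h.2.1]

open scoped Classical in
/-- **MIN** -/
theorem min : Q273.V.S_MIN := by
  intro K _ _ s x f hs hfin h
  have hinj := inj_of_top (adj_top hs hfin h)
  have hroots := roots_eq hs hfin h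
  have hFl : (f.map (Int.castRingHom ℂ)).leadingCoeff = (f.leadingCoeff : ℂ) := by
    rw [leadingCoeff_map_of_injective Int.cast_injective]
    rfl
  have hval : (Finset.univ.image fun σ : K →+* ℂ => σ x).val =
      (Finset.univ : Finset (K →+* ℂ)).val.map (fun σ => σ x) :=
    Finset.image_val_of_injOn hinj.injOn
  have hprod : f.map (Int.castRingHom ℂ) =
      C (f.leadingCoeff : ℂ) * ∏ σ : K →+* ℂ, (X - C (σ x)) := by
    have h1 := (IsAlgClosed.splits (f.map (Int.castRingHom ℂ))).eq_prod_roots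
    rw [hroots, hval, Multiset.map_map, hFl] at h1
    exact h1
  have hlcn : ‖(f.leadingCoeff : ℂ)‖ = Q273.V.lc f := by
    unfold Q273.V.lc
    rw [Complex.norm_intCast]
  refine ⟨hprod, hinj, ?_, lc_ge h, fun σ => ?_⟩
  · unfold Q273.V.M
    rw [mahlerMeasure_eq_leadingCoeff_mul_prod_roots, hroots, hval, Multiset.map_map, hFl, hlcn]
    rfl
  · unfold Q273.V.dv
    have h1 : aeval (σ x) (derivative f) = (derivative (f.map (Int.castRingHom ℂ))).eval (σ x) := by
      rw [derivative_map, eval_map]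
      rfl
    rw [h1, hprod, derivative_C_mul, eval_C_mul, norm_mul, hlcn]
    congr 1
    have h2 := Lagrange.eval_nodal_derivative_eval_node_eq (s := Finset.univ)
      (v := fun σ : K →+* ℂ => σ x) (Finset.mem_univ σ)
    unfold Lagrange.nodal at h2
    rw [h2, eval_prod, norm_prod]
    refine Finset.prod_congr ?_ fun τ _ => ?_
    · ext τ
      simp
    · rw [eval_sub, eval_X, eval_C]

/-- **ENUM** -/
theorem enum : Q273.V.S_ENUM := by
  classical
  intro K _ _ h3 σ
  have hcard : Fintype.card (K →+* ℂ) = 3 := by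
    rw [NumberField.Embeddings.card, h3]
  have hconj : ∀ τ : K →+* ℂ, ∀ x, ((starRingEnd ℂ).comp τ) x = (starRingEnd ℂ) (τ x) :=
    fun τ x => rfl
  have hcc : ∀ τ : K →+* ℂ, (starRingEnd ℂ).comp ((starRingEnd ℂ).comp τ) = τ := by
    intro τ
    ext x
    rw [hconj, hconj, Complex.conj_conj]
  have hreal : ∀ τ : K →+* ℂ, (starRingEnd ℂ).comp τ = τ → ∀ x, (τ x).im = 0 := by
    intro τ h x
    have h1 := hconj τ x
    rw [h] at h1
    exact Complex.conj_eq_iff_im.1 h1.symm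
  by_cases hσ : (starRingEnd ℂ).comp σ = σ
  · let e1 : Fin 3 ≃ (K →+* ℂ) := (Fintype.equivFinOfCardEq hcard).symm
    refine ⟨(Equiv.swap 0 (e1.symm σ)).trans e1, ?_, Or.inl (hreal σ hσ)⟩
    rw [Equiv.trans_apply, Equiv.swap_apply_left, Equiv.apply_symm_apply]
  · obtain ⟨τ, hτ⟩ : ∃ τ : K →+* ℂ, τ ∉ ({σ, (starRingEnd ℂ).comp σ} : Finset (K →+* ℂ)) := by
      by_contra hcon
      push Not at hcon
      have h1 : (Finset.univ : Finset (K →+* ℂ)) ⊆ {σ, (starRingEnd ℂ).comp σ} :=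
        fun τ _ => hcon τ
      have h2 := Finset.card_le_card h1
      rw [Finset.card_univ, hcard] at h2
      have h4 := Finset.card_le_two (a := σ) (b := (starRingEnd ℂ).comp σ)
      omega
    rw [Finset.mem_insert, Finset.mem_singleton, not_or] at hτ
    have hinj : Function.Injective ![σ, (starRingEnd ℂ).comp σ, τ] := by
      intro i j hij
      fin_cases i <;> fin_cases j <;> simp at hij ⊢
      · exact hσ hij.symm
      · exact hτ.1 hij.symm
      · exact hσ hij
      · exact hτ.2 hij.symm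
      · exact hτ.1 hij
      · exact hτ.2 hij
    have hbij : Function.Bijective ![σ, (starRingEnd ℂ).comp σ, τ] := by
      rw [Fintype.bijective_iff_injective_and_card]
      exact ⟨hinj, by rw [hcard, Fintype.card_fin]⟩
    have hττ : (starRingEnd ℂ).comp τ = τ := by
      obtain ⟨i, hi⟩ := hbij.2 ((starRingEnd ℂ).comp τ)
      fin_cases i
      · exfalso
        apply hτ.2
        have h1 : σ = (starRingEnd ℂ).comp τ := hi
        rw [h1, hcc]
      · exfalso
        apply hτ.1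
        have h1 : (starRingEnd ℂ).comp σ = (starRingEnd ℂ).comp τ := hi
        rw [← hcc τ, ← h1, hcc]
      · exact hi.symm
    refine ⟨Equiv.ofBijective _ hbij, rfl, Or.inr ⟨fun x => rfl, fun x => hreal τ hττ x⟩⟩

/-- **DLOW** -/
theorem dlow : Q273.V.S_DLOW := by
  classical
  intro f z h
  have hf0 : f ≠ 0 := h.1.ne_zero
  have hinjC : Function.Injective (Int.castRingHom ℂ) := Int.cast_injective
  have hFl : (f.map (Int.castRingHom ℂ)).leadingCoeff = (f.leadingCoeff : ℂ) := by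
    rw [leadingCoeff_map_of_injective hinjC]
    rfl
  have hF0 : f.map (Int.castRingHom ℂ) ≠ 0 := (Polynomial.map_ne_zero_iff hinjC).2 hf0
  have hsep : (f.map (Int.castRingHom ℂ)).Separable := by
    have h1 : f.map (Int.castRingHom ℂ) = (f.map (Int.castRingHom ℚ)).map (algebraMap ℚ ℂ) := by
      rw [Polynomial.map_map]
      congr 1
    rw [h1]
    exact (irr (by norm_num) h).separable.map
  have hspl := IsAlgClosed.splits (f.map (Int.castRingHom ℂ))
  have hcard : (f.map (Int.castRingHom ℂ)).roots.card = 3 := by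
    rw [← h.2.1, ← natDegree_map_eq_of_injective hinjC f]
    exact (splits_iff_card_roots.1 hspl)
  have hz : z ∈ (f.map (Int.castRingHom ℂ)).roots := by
    rw [mem_roots hF0, IsRoot, eval_map]
    exact h.2.2
  obtain ⟨R, hR⟩ := Multiset.exists_cons_of_mem hz
  rw [hR, Multiset.card_cons] at hcard
  obtain ⟨u, w, rfl⟩ := Multiset.card_eq_two.1 (by omega : R.card = 2)
  have hnodup := nodup_roots hsep
  have hprod := hspl.eq_prod_roots
  rw [hR] at hnodup hprod
  have hne : z ≠ u ∧ z ≠ w ∧ u ≠ w := by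
    simp only [Multiset.insert_eq_cons, Multiset.nodup_cons, Multiset.mem_cons,
      Multiset.mem_singleton, not_or, Multiset.nodup_singleton, and_true] at hnodup
    exact ⟨hnodup.1.1, hnodup.1.2, hnodup.2⟩
  have hFprod : f.map (Int.castRingHom ℂ) = C (f.leadingCoeff : ℂ) * ((X - C z) * (X - C u) *
      (X - C w)) := by
    rw [hprod, hFl]
    simp only [Multiset.insert_eq_cons, Multiset.map_cons, Multiset.prod_cons,
      Multiset.map_singleton, Multiset.prod_singleton]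
    ring
  obtain ⟨A, hA⟩ : ∃ A : ℤ, A = f.leadingCoeff := ⟨_, rfl⟩
  have hA0 : A ≠ 0 := by rw [hA]; exact leadingCoeff_ne_zero.2 hf0
  have hlcn : ‖(A : ℂ)‖ = Q273.V.lc f := by
    unfold Q273.V.lc
    rw [Complex.norm_intCast, hA]
  have hM : Q273.V.M f = ‖(A : ℂ)‖ * (max 1 ‖z‖ * (max 1 ‖u‖ * max 1 ‖w‖)) := by
    unfold Q273.V.M
    rw [mahlerMeasure_eq_leadingCoeff_mul_prod_roots, hR, hFl, ← hA]
    simp only [Multiset.insert_eq_cons, Multiset.map_cons, Multiset.prod_cons,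
      Multiset.map_singleton, Multiset.prod_singleton]
  have hdv : Q273.V.dv f z = ‖(A : ℂ)‖ * (‖z - u‖ * ‖z - w‖) := by
    unfold Q273.V.dv
    have h1 : aeval z (derivative f) = (derivative (f.map (Int.castRingHom ℂ))).eval z := by
      rw [derivative_map, eval_map]
      rfl
    rw [h1, hFprod, ← hA]
    simp only [derivative_mul, derivative_C, zero_mul, zero_add, derivative_sub, derivative_X,
      sub_zero, one_mul, mul_one, eval_mul, eval_C, eval_add, eval_sub, eval_X, sub_self,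
      add_zero, zero_mul]
    rw [norm_mul, norm_mul]
  -- coefficients
  have hc : ∀ n, (f.coeff n : ℂ) = (C (A : ℂ) * ((X - C z) * (X - C u) * (X - C w))).coeff n := by
    intro n
    rw [hA, ← hFprod, coeff_map]
    rfl
  have hexp : C (A : ℂ) * ((X - C z) * (X - C u) * (X - C w)) =
      C (A : ℂ) * X ^ 3 + C (-A * (z + u + w)) * X ^ 2 + C (A * (z * u + z * w + u * w)) * X +
        C (-A * (z * u * w)) := by
    simp only [map_mul, map_add, map_neg]
    ring
  have hc2 : (f.coeff 2 : ℂ) = -A * (z + u + w) := by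
    rw [hc, hexp]
    simp only [coeff_add, coeff_C_mul, coeff_X_pow, coeff_X, coeff_C]
    norm_num
  have hc1 : (f.coeff 1 : ℂ) = A * (z * u + z * w + u * w) := by
    rw [hc, hexp]
    simp only [coeff_add, coeff_C_mul, coeff_X_pow, coeff_X, coeff_C]
    norm_num
  have hc0 : (f.coeff 0 : ℂ) = -A * (z * u * w) := by
    rw [hc, hexp]
    simp only [coeff_add, coeff_C_mul, coeff_X_pow, coeff_X, coeff_C]
    norm_num
  obtain ⟨D, hD⟩ : ∃ D : ℤ, D = f.coeff 2 ^ 2 * f.coeff 1 ^ 2 - 4 * A * f.coeff 1 ^ 3 -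
      4 * f.coeff 2 ^ 3 * f.coeff 0 - 27 * A ^ 2 * f.coeff 0 ^ 2 +
      18 * A * f.coeff 2 * f.coeff 1 * f.coeff 0 := ⟨_, rfl⟩
  have hDC : (D : ℂ) = A ^ 4 * ((z - u) * (z - w) * (u - w)) ^ 2 := by
    rw [hD]
    push_cast
    rw [hc2, hc1, hc0]
    ring
  have hAC : (A : ℂ) ≠ 0 := by exact_mod_cast hA0
  have hD0 : D ≠ 0 := by
    rintro h0
    rw [h0] at hDC
    push_cast at hDC
    have h1 : (A : ℂ) ^ 4 * ((z - u) * (z - w) * (u - w)) ^ 2 ≠ 0 :=
      mul_ne_zero (pow_ne_zero _ hAC) (pow_ne_zero _ (mul_ne_zero (mul_ne_zero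
        (sub_ne_zero.2 hne.1) (sub_ne_zero.2 hne.2.1)) (sub_ne_zero.2 hne.2.2)))
    exact h1 hDC.symm
  have hD1 : 1 ≤ ‖(D : ℂ)‖ := by
    rw [Complex.norm_intCast]
    exact_mod_cast Int.one_le_abs hD0
  rw [hDC] at hD1
  have hsq : ‖(A : ℂ) ^ 4 * ((z - u) * (z - w) * (u - w)) ^ 2‖ =
      (Q273.V.dv f z * (‖(A : ℂ)‖ * ‖u - w‖)) ^ 2 := by
    rw [hdv]
    simp only [norm_mul, norm_pow]
    ring
  rw [hsq] at hD1
  have hle : ‖(A : ℂ)‖ * ‖u - w‖ ≤ 2 * Q273.V.M f := by
    rw [hM]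
    have h1 : ‖u - w‖ ≤ 2 * (max 1 ‖u‖ * max 1 ‖w‖) := by
      have h2 := norm_sub_le u w
      have h3 : ‖u‖ ≤ max 1 ‖u‖ := le_max_right _ _
      have h4 : ‖w‖ ≤ max 1 ‖w‖ := le_max_right _ _
      have h5 : 1 ≤ max 1 ‖u‖ := le_max_left _ _
      have h6 : 1 ≤ max 1 ‖w‖ := le_max_left _ _
      nlinarith
    have h7 : 1 ≤ max 1 ‖z‖ := le_max_left _ _
    have h8 : 0 ≤ ‖(A : ℂ)‖ := norm_nonneg _
    have h9 : 0 ≤ max 1 ‖u‖ * max 1 ‖w‖ := by positivity
    calc ‖(A : ℂ)‖ * ‖u - w‖ ≤ ‖(A : ℂ)‖ * (2 * (max 1 ‖u‖ * max 1 ‖w‖)) :=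
          mul_le_mul_of_nonneg_left h1 h8
      _ = 2 * (‖(A : ℂ)‖ * (1 * (max 1 ‖u‖ * max 1 ‖w‖))) := by ring
      _ ≤ 2 * (‖(A : ℂ)‖ * (max 1 ‖z‖ * (max 1 ‖u‖ * max 1 ‖w‖))) := by
          have := mul_le_mul_of_nonneg_right h7 h9
          have := mul_le_mul_of_nonneg_left this h8
          linarith
  have hdv0 : 0 ≤ Q273.V.dv f z := norm_nonneg _
  have hq0 : 0 ≤ Q273.V.dv f z * (‖(A : ℂ)‖ * ‖u - w‖) := by positivity
  have h1 : 1 ≤ Q273.V.dv f z * (‖(A : ℂ)‖ * ‖u - w‖) := by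
    by_contra hcon
    push Not at hcon
    have := mul_lt_one_of_nonneg_of_lt_one_left hq0 hcon hcon.le
    rw [← pow_two] at this
    linarith
  calc (1 : ℝ) ≤ Q273.V.dv f z * (‖(A : ℂ)‖ * ‖u - w‖) := h1
    _ ≤ Q273.V.dv f z * (2 * Q273.V.M f) := mul_le_mul_of_nonneg_left hle hdv0
    _ = 2 * Q273.V.M f * Q273.V.dv f z := by ring

end Pool.Agent.Q239.V
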