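import Pool.Agent.Q273.V.Stm

/-!
# Reduction of positive definite binary quadratic forms
-/

set_option autoImplicit false

namespace Pool.Agent.Q239.V

open UpperHalfPlane ModularGroup MatrixGroups

theorem red {A B C : ℝ} (hA : 0 < A) (hd : 0 < A * C - B ^ 2) : ∃ p q r t : ℤ, p * t - q * r = 1 ∧
    A * p ^ 2 - 2 * B * (p * r) + C * r ^ 2 ≤ A * q ^ 2 - 2 * B * (q * t) + C * t ^ 2 ∧
    (A * p ^ 2 - 2 * B * (p * r) + C * r ^ 2) * (A * q ^ 2 - 2 * B * (q * t) + C * t ^ 2) ≤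
      4 / 3 * (A * C - B ^ 2) := by
  obtain ⟨x, hx⟩ : ∃ x : ℝ, x = B / A := ⟨_, rfl⟩
  obtain ⟨y, hy⟩ : ∃ y : ℝ, y = √(A * C - B ^ 2) / A := ⟨_, rfl⟩
  have hy0 : 0 < y := by
    rw [hy]
    positivity
  have hB : B = A * x := by
    rw [hx]
    field_simp
  have hy2 : A ^ 2 * y ^ 2 = A * C - B ^ 2 := by
    rw [hy, div_pow, Real.sq_sqrt hd.le]
    field_simp
  have hC : C = A * (x ^ 2 + y ^ 2) := by
    have h1 : A * C = A * (A * (x ^ 2 + y ^ 2)) := by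
      rw [hB] at hy2
      linear_combination -hy2
    exact mul_left_cancel₀ hA.ne' h1
  let z : ℍ := ⟨⟨x, y⟩, hy0⟩
  have hzre : z.re = x := rfl
  have hzim : z.im = y := rfl
  obtain ⟨g, hg1, hg2⟩ := exists_smul_mem_fd z
  have hdet := g.det_coe
  rw [Matrix.det_fin_two] at hdet
  obtain ⟨N1, hN1⟩ : ∃ N1 : ℝ, N1 = (g 1 0 * x + g 1 1) ^ 2 + (g 1 0) ^ 2 * y ^ 2 := ⟨_, rfl⟩
  obtain ⟨N2, hN2⟩ : ∃ N2 : ℝ, N2 = (g 0 0 * x + g 0 1) ^ 2 + (g 0 0) ^ 2 * y ^ 2 := ⟨_, rfl⟩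
  have hden : Complex.normSq (denom g z) = N1 := by
    rw [ModularGroup.denom_apply, hN1, Complex.normSq_apply]
    have e1 : (z : ℂ) = ⟨x, y⟩ := rfl
    rw [e1]
    simp only [Complex.add_re, Complex.add_im, Complex.mul_re, Complex.mul_im, Complex.intCast_re,
      Complex.intCast_im]
    ring
  have him : (g • z).im = y / N1 := by
    rw [ModularGroup.im_smul_eq_div_normSq, hden]
    rfl
  have hns : Complex.normSq ((g • z : ℍ) : ℂ) = N2 / N1 := by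
    rw [UpperHalfPlane.coe_specialLinearGroup_apply, map_div₀]
    have e1 : (z : ℂ) = ⟨x, y⟩ := rfl
    rw [e1, hN1, hN2, Complex.normSq_apply, Complex.normSq_apply]
    simp only [Complex.add_re, Complex.add_im, Complex.mul_re, Complex.mul_im, algebraMap_int_eq,
      Int.coe_castRingHom, Complex.ofReal_intCast, Complex.intCast_re, Complex.intCast_im]
    congr 1 <;> ring
  have hN1pos : 0 < N1 := by
    rw [← hden]
    exact Complex.normSq_pos.2 (denom_ne_zero _ _)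
  have h1 : N1 ≤ N2 := by
    rw [hns] at hg1
    rwa [one_le_div hN1pos] at hg1
  have h2 : N1 * N2 ≤ 4 / 3 * y ^ 2 := by
    have h3 : Complex.normSq ((g • z : ℍ) : ℂ) = (g • z).re ^ 2 + (g • z).im ^ 2 := by
      rw [Complex.normSq_apply]
      have e1 : ((g • z : ℍ) : ℂ).re = (g • z).re := rfl
      have e2 : ((g • z : ℍ) : ℂ).im = (g • z).im := rfl
      rw [e1, e2]
      ring
    have h4 : (g • z).re ^ 2 ≤ 1 / 4 := by
      have := abs_le.1 hg2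
      nlinarith [this.1, this.2]
    rw [him] at h3
    rw [h3] at hns hg1
    have h5 : 3 / 4 * (N2 / N1) ≤ (y / N1) ^ 2 := by
      rw [← hns]
      linarith
    rw [div_pow, mul_div_assoc', div_le_div_iff₀ hN1pos (by positivity)] at h5
    have h6 : N1 * (3 / 4 * N2 * N1) ≤ N1 * (y ^ 2) := by
      calc N1 * (3 / 4 * N2 * N1) = 3 / 4 * N2 * N1 ^ 2 := by ring
        _ ≤ y ^ 2 * N1 := h5
        _ = N1 * y ^ 2 := by ring
    have h7 := le_of_mul_le_mul_left h6 hN1pos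
    linarith
  refine ⟨g 1 1, -g 0 1, -g 1 0, g 0 0, ?_, ?_, ?_⟩
  · linarith
  · have e1 : A * ((g 1 1 : ℤ) : ℝ) ^ 2 - 2 * B * (((g 1 1 : ℤ) : ℝ) * ((-g 1 0 : ℤ) : ℝ)) +
        C * ((-g 1 0 : ℤ) : ℝ) ^ 2 = A * N1 := by
      rw [hN1, hB, hC]
      push_cast
      ring
    have e2 : A * ((-g 0 1 : ℤ) : ℝ) ^ 2 - 2 * B * (((-g 0 1 : ℤ) : ℝ) * ((g 0 0 : ℤ) : ℝ)) +
        C * ((g 0 0 : ℤ) : ℝ) ^ 2 = A * N2 := by
      rw [hN2, hB, hC]
      push_cast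
      ring
    rw [e1, e2]
    exact mul_le_mul_of_nonneg_left h1 hA.le
  · have e1 : A * ((g 1 1 : ℤ) : ℝ) ^ 2 - 2 * B * (((g 1 1 : ℤ) : ℝ) * ((-g 1 0 : ℤ) : ℝ)) +
        C * ((-g 1 0 : ℤ) : ℝ) ^ 2 = A * N1 := by
      rw [hN1, hB, hC]
      push_cast
      ring
    have e2 : A * ((-g 0 1 : ℤ) : ℝ) ^ 2 - 2 * B * (((-g 0 1 : ℤ) : ℝ) * ((g 0 0 : ℤ) : ℝ)) +
        C * ((g 0 0 : ℤ) : ℝ) ^ 2 = A * N2 := by
      rw [hN2, hB, hC]
      push_cast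
      ring
    rw [e1, e2, ← hy2]
    have h8 : 0 ≤ A ^ 2 := by positivity
    calc A * N1 * (A * N2) = A ^ 2 * (N1 * N2) := by ring
      _ ≤ A ^ 2 * (4 / 3 * y ^ 2) := mul_le_mul_of_nonneg_left h2 h8
      _ = _ := by ring

end Pool.Agent.Q239.V
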