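import Pool.Agent.Q239.V.RED

/-!
# Reduction of binary cubic forms
-/

set_option autoImplicit false

namespace Pool.Agent.Q239.V

/-- the value of the cubic form -/
def cf {R : Type} [CommRing R] (a b c d X Y : R) : R := a * X ^ 3 + b * X ^ 2 * Y + c * X * Y ^ 2 + d * Y ^ 3

/-- the second coefficient after a substitution -/
def cf1 {R : Type} [CommRing R] (a b c d p q r t : R) : R :=
  3 * a * p ^ 2 * q + b * (p ^ 2 * t + 2 * p * q * r) + c * (2 * p * r * t + q * r ^ 2) + 3 * d * r ^ 2 * t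

/-- the third coefficient after a substitution -/
def cf2 {R : Type} [CommRing R] (a b c d p q r t : R) : R :=
  3 * a * p * q ^ 2 + b * (2 * p * q * t + q ^ 2 * r) + c * (p * t ^ 2 + 2 * q * r * t) + 3 * d * r * t ^ 2

/-- the discriminant -/
def cdisc {R : Type} [CommRing R] (a b c d : R) : R :=
  b ^ 2 * c ^ 2 - 4 * a * c ^ 3 - 4 * b ^ 3 * d - 27 * a ^ 2 * d ^ 2 + 18 * a * b * c * d

theorem cf_sub {R : Type} [CommRing R] (a b c d p q r t X Y : R) :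
    cf (cf a b c d p r) (cf1 a b c d p q r t) (cf2 a b c d p q r t) (cf a b c d q t) X Y =
      cf a b c d (p * X + q * Y) (r * X + t * Y) := by
  unfold cf cf1 cf2
  ring

/-- the roots -/
structure Rts (a b c d : ℤ) (y1 y2 y3 : ℂ) : Prop where
  hb : (b : ℂ) = -a * (y1 + y2 + y3)
  hc : (c : ℂ) = a * (y1 * y2 + y1 * y3 + y2 * y3)
  hd : (d : ℂ) = -a * (y1 * y2 * y3)
  re : y1.im = 0
  cj : (y2.im = 0 ∧ y3.im = 0) ∨ y3 = (starRingEnd ℂ) y2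

variable {a b c d : ℤ} {y1 y2 y3 : ℂ}

theorem Rts.disc (h : Rts a b c d y1 y2 y3) :
    ((cdisc a b c d : ℤ) : ℂ) = a ^ 4 * ((y1 - y2) * (y1 - y3) * (y2 - y3)) ^ 2 := by
  unfold cdisc
  push_cast
  rw [h.hb, h.hc, h.hd]
  ring

theorem Rts.disc_abs (h : Rts a b c d y1 y2 y3) :
    |((cdisc a b c d : ℤ) : ℝ)| = (|(a : ℝ)| ^ 2 * (‖y1 - y2‖ * ‖y1 - y3‖ * ‖y2 - y3‖)) ^ 2 := by
  rw [← Complex.norm_intCast, h.disc]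
  simp only [norm_mul, norm_pow, Complex.norm_intCast]
  ring

theorem sq_lin (y : ℂ) (X Y : ℤ) : ‖(X : ℂ) - y * Y‖ ^ 2 =
    X ^ 2 - 2 * y.re * (X * Y) + ‖y‖ ^ 2 * Y ^ 2 := by
  rw [← Complex.normSq_eq_norm_sq, ← Complex.normSq_eq_norm_sq, Complex.normSq_apply,
    Complex.normSq_apply]
  simp only [Complex.sub_re, Complex.sub_im, Complex.mul_re, Complex.mul_im, Complex.intCast_re,
    Complex.intCast_im]
  ring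

/-- **the determinant of the covariant** -/
theorem Rts.det (h : Rts a b c d y1 y2 y3) (w1 w2 w3 : ℝ)
    (h1 : w1 = |(a : ℝ)| * ‖y2 - y3‖) (h2 : w2 = |(a : ℝ)| * ‖y1 - y3‖)
    (h3 : w3 = |(a : ℝ)| * ‖y1 - y2‖) :
    (w1 ^ 2 + w2 ^ 2 + w3 ^ 2) * (w1 ^ 2 * ‖y1‖ ^ 2 + w2 ^ 2 * ‖y2‖ ^ 2 + w3 ^ 2 * ‖y3‖ ^ 2) -
      (w1 ^ 2 * y1.re + w2 ^ 2 * y2.re + w3 ^ 2 * y3.re) ^ 2 =
      3 * (|(a : ℝ)| ^ 2 * (‖y1 - y2‖ * ‖y1 - y3‖ * ‖y2 - y3‖)) ^ 2 := by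
  have e1 : w1 ^ 2 = |(a : ℝ)| ^ 2 * ‖y2 - y3‖ ^ 2 := by rw [h1]; ring
  have e2 : w2 ^ 2 = |(a : ℝ)| ^ 2 * ‖y1 - y3‖ ^ 2 := by rw [h2]; ring
  have e3 : w3 ^ 2 = |(a : ℝ)| ^ 2 * ‖y1 - y2‖ ^ 2 := by rw [h3]; ring
  have e4 : 3 * (|(a : ℝ)| ^ 2 * (‖y1 - y2‖ * ‖y1 - y3‖ * ‖y2 - y3‖)) ^ 2 =
      3 * ((|(a : ℝ)| ^ 2) ^ 2 * (‖y1 - y2‖ ^ 2 * ‖y1 - y3‖ ^ 2 * ‖y2 - y3‖ ^ 2)) := by ring
  rw [e4, e1, e2, e3]
  have hn : ∀ z : ℂ, ‖z‖ ^ 2 = z.re ^ 2 + z.im ^ 2 := by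
    intro z
    rw [← Complex.normSq_eq_norm_sq, Complex.normSq_apply]
    ring
  rw [hn, hn, hn, hn, hn, hn]
  simp only [Complex.sub_re, Complex.sub_im]
  rcases h.cj with ⟨h5, h6⟩ | h5
  · rw [h.re, h5, h6]
    ring
  · rw [h.re, h5, Complex.conj_re, Complex.conj_im]
    ring

theorem prod3 {e A0 w1 w2 w3 g1 g2 g3 : ℝ} {u1 u2 u3 : ℂ} (h1 : 0 ≤ w1) (h2 : 0 ≤ w2)
    (h3 : 0 ≤ w3) (he : e * A0 = w1 * w2 * w3) (l1 : w1 * ‖u1‖ ≤ g1) (l2 : w2 * ‖u2‖ ≤ g2)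
    (l3 : w3 * ‖u3‖ ≤ g3) : e * (A0 * (‖u1‖ * ‖u2‖ * ‖u3‖)) ≤ g1 * g2 * g3 := by
  have hg1 : 0 ≤ g1 := (mul_nonneg h1 (norm_nonneg _)).trans l1
  have hg2 : 0 ≤ g2 := (mul_nonneg h2 (norm_nonneg _)).trans l2
  calc _ = (e * A0) * (‖u1‖ * ‖u2‖ * ‖u3‖) := by ring
    _ = (w1 * ‖u1‖) * (w2 * ‖u2‖) * (w3 * ‖u3‖) := by rw [he]; ring
    _ ≤ _ := mul_le_mul (mul_le_mul l1 l2 (by positivity) hg1) l3 (by positivity)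
        (mul_nonneg hg1 hg2)

theorem le_of_sum {m1 m2 m3 g : ℝ} (hg : 0 ≤ g) (h : g ^ 2 = m1 ^ 2 + m2 ^ 2 + m3 ^ 2) :
    m1 ≤ g ∧ m2 ≤ g ∧ m3 ≤ g := by
  refine ⟨(abs_le_of_sq_le_sq' ?_ hg).2, (abs_le_of_sq_le_sq' ?_ hg).2,
    (abs_le_of_sq_le_sq' ?_ hg).2⟩
  · rw [h]; nlinarith [sq_nonneg m2, sq_nonneg m3]
  · rw [h]; nlinarith [sq_nonneg m1, sq_nonneg m3]
  · rw [h]; nlinarith [sq_nonneg m1, sq_nonneg m2]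

theorem Rts.coef (h : Rts a b c d y1 y2 y3) {e w1 w2 w3 g1 g2 : ℝ} (he0 : 0 ≤ e) (hw1 : 0 ≤ w1)
    (hw2 : 0 ≤ w2) (hw3 : 0 ≤ w3) (hea : e * |(a : ℝ)| = w1 * w2 * w3) {p q r t : ℤ}
    (lm1 : w1 * ‖(p : ℂ) - y1 * r‖ ≤ g1) (lm2 : w2 * ‖(p : ℂ) - y2 * r‖ ≤ g1)
    (lm3 : w3 * ‖(p : ℂ) - y3 * r‖ ≤ g1) (ln1 : w1 * ‖(q : ℂ) - y1 * t‖ ≤ g2)
    (ln2 : w2 * ‖(q : ℂ) - y2 * t‖ ≤ g2) (ln3 : w3 * ‖(q : ℂ) - y3 * t‖ ≤ g2) :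
    e * |((cf a b c d p r : ℤ) : ℝ)| ≤ g1 * g1 * g1 ∧
    e * |((cf a b c d q t : ℤ) : ℝ)| ≤ g2 * g2 * g2 ∧
    e * |((cf1 a b c d p q r t : ℤ) : ℝ)| ≤ 3 * (g1 * g1 * g2) := by
  have ca : ((cf a b c d p r : ℤ) : ℂ) = a * ((p - y1 * r) * (p - y2 * r) * (p - y3 * r)) := by
    unfold cf
    push_cast
    rw [h.hb, h.hc, h.hd]
    ring
  have cd' : ((cf a b c d q t : ℤ) : ℂ) = a * ((q - y1 * t) * (q - y2 * t) * (q - y3 * t)) := by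
    unfold cf
    push_cast
    rw [h.hb, h.hc, h.hd]
    ring
  have cb : ((cf1 a b c d p q r t : ℤ) : ℂ) = a * ((p - y1 * r) * (p - y2 * r) * (q - y3 * t)) +
      a * ((p - y1 * r) * (q - y2 * t) * (p - y3 * r)) +
      a * ((q - y1 * t) * (p - y2 * r) * (p - y3 * r)) := by
    unfold cf1
    push_cast
    rw [h.hb, h.hc, h.hd]
    ring
  refine ⟨?_, ?_, ?_⟩
  · rw [← Complex.norm_intCast, ca]
    simp only [norm_mul, Complex.norm_intCast]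
    exact prod3 hw1 hw2 hw3 hea lm1 lm2 lm3
  · rw [← Complex.norm_intCast, cd']
    simp only [norm_mul, Complex.norm_intCast]
    exact prod3 hw1 hw2 hw3 hea ln1 ln2 ln3
  · rw [← Complex.norm_intCast, cb]
    refine (mul_le_mul_of_nonneg_left norm_add₃_le he0).trans ?_
    simp only [norm_mul, Complex.norm_intCast]
    rw [mul_add, mul_add]
    have h1 := prod3 hw1 hw2 hw3 hea lm1 lm2 ln3
    have h2 := prod3 hw1 hw2 hw3 hea lm1 ln2 lm3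
    have h3 := prod3 hw1 hw2 hw3 hea ln1 lm2 lm3
    linarith

theorem cf_symm (p q r t : ℤ) : cf2 a b c d p q r t = cf1 a b c d q p t r := by
  unfold cf1 cf2
  ring

theorem Rts.reduce1 (h : Rts a b c d y1 y2 y3) (hD : cdisc a b c d ≠ 0) (ha : a ≠ 0) :
    ∃ (p q r t : ℤ) (e g1 g2 : ℝ), p * t - q * r = 1 ∧ 1 ≤ e ∧
      e ^ 2 = |((cdisc a b c d : ℤ) : ℝ)| ∧ 0 ≤ g1 ∧ g1 ≤ g2 ∧ g1 * g2 ≤ 2 * e ∧
      e * |((cf a b c d p r : ℤ) : ℝ)| ≤ g1 * g1 * g1 ∧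
      e * |((cf a b c d q t : ℤ) : ℝ)| ≤ g2 * g2 * g2 ∧
      e * |((cf1 a b c d p q r t : ℤ) : ℝ)| ≤ 3 * (g1 * g1 * g2) ∧
      e * |((cf2 a b c d p q r t : ℤ) : ℝ)| ≤ 3 * (g2 * g2 * g1) := by
  have haR : (0 : ℝ) < |(a : ℝ)| := abs_pos.2 (by exact_mod_cast ha)
  obtain ⟨e, he⟩ : ∃ e : ℝ, e = |(a : ℝ)| ^ 2 * (‖y1 - y2‖ * ‖y1 - y3‖ * ‖y2 - y3‖) := ⟨_, rfl⟩
  have he2 : e ^ 2 = |((cdisc a b c d : ℤ) : ℝ)| := by rw [h.disc_abs, he]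
  have he0 : 0 ≤ e := by rw [he]; positivity
  have hD1 : (1 : ℝ) ≤ |((cdisc a b c d : ℤ) : ℝ)| := by exact_mod_cast Int.one_le_abs hD
  have he1 : 1 ≤ e := by
    rw [← he2] at hD1
    by_contra hcon
    push Not at hcon
    nlinarith
  obtain ⟨w1, h1⟩ : ∃ w1 : ℝ, w1 = |(a : ℝ)| * ‖y2 - y3‖ := ⟨_, rfl⟩
  obtain ⟨w2, h2⟩ : ∃ w2 : ℝ, w2 = |(a : ℝ)| * ‖y1 - y3‖ := ⟨_, rfl⟩
  obtain ⟨w3, h3⟩ : ∃ w3 : ℝ, w3 = |(a : ℝ)| * ‖y1 - y2‖ := ⟨_, rfl⟩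
  have hw1 : 0 ≤ w1 := by rw [h1]; positivity
  have hw2 : 0 ≤ w2 := by rw [h2]; positivity
  have hw3 : 0 ≤ w3 := by rw [h3]; positivity
  have hea : e * |(a : ℝ)| = w1 * w2 * w3 := by rw [he, h1, h2, h3]; ring
  have hdet := h.det w1 w2 w3 h1 h2 h3
  rw [← he] at hdet
  obtain ⟨A, hA⟩ : ∃ A : ℝ, A = w1 ^ 2 + w2 ^ 2 + w3 ^ 2 := ⟨_, rfl⟩
  obtain ⟨B, hB⟩ : ∃ B : ℝ, B = w1 ^ 2 * y1.re + w2 ^ 2 * y2.re + w3 ^ 2 * y3.re := ⟨_, rfl⟩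
  obtain ⟨C, hC⟩ : ∃ C : ℝ, C = w1 ^ 2 * ‖y1‖ ^ 2 + w2 ^ 2 * ‖y2‖ ^ 2 + w3 ^ 2 * ‖y3‖ ^ 2 :=
    ⟨_, rfl⟩
  rw [← hA, ← hB, ← hC] at hdet
  have hApos : 0 < A := by
    rw [hA]
    have h4 : 0 < w1 * w2 * w3 := by rw [← hea]; positivity
    have h5 : w1 ≠ 0 := by
      rintro h0
      rw [h0] at h4
      simp at h4
    positivity
  obtain ⟨p, q, r, t, hdet1, hle, hprod⟩ := red hApos (by rw [hdet]; positivity) (C := C) (B := B)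
  rw [hdet] at hprod
  have hQ : ∀ X Y : ℤ, A * X ^ 2 - 2 * B * (X * Y) + C * Y ^ 2 =
      (w1 * ‖(X : ℂ) - y1 * Y‖) ^ 2 + (w2 * ‖(X : ℂ) - y2 * Y‖) ^ 2 +
        (w3 * ‖(X : ℂ) - y3 * Y‖) ^ 2 := by
    intro X Y
    rw [mul_pow, mul_pow, mul_pow, sq_lin, sq_lin, sq_lin, hA, hB, hC]
    ring
  obtain ⟨Q1, hQ1⟩ : ∃ Q : ℝ, Q = A * p ^ 2 - 2 * B * (p * r) + C * r ^ 2 := ⟨_, rfl⟩
  obtain ⟨Q2, hQ2⟩ : ∃ Q : ℝ, Q = A * q ^ 2 - 2 * B * (q * t) + C * t ^ 2 := ⟨_, rfl⟩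
  rw [← hQ1, ← hQ2] at hle hprod
  have hQ10 : 0 ≤ Q1 := by rw [hQ1, hQ]; positivity
  have hQ20 : 0 ≤ Q2 := by rw [hQ2, hQ]; positivity
  have g1s : √Q1 ^ 2 = Q1 := Real.sq_sqrt hQ10
  have g2s : √Q2 ^ 2 = Q2 := Real.sq_sqrt hQ20
  obtain ⟨lm1, lm2, lm3⟩ := le_of_sum (Real.sqrt_nonneg Q1) (g1s.trans (hQ1.trans (hQ p r)))
  obtain ⟨ln1, ln2, ln3⟩ := le_of_sum (Real.sqrt_nonneg Q2) (g2s.trans (hQ2.trans (hQ q t)))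
  obtain ⟨na, nd, nb⟩ := h.coef he0 hw1 hw2 hw3 hea lm1 lm2 lm3 ln1 ln2 ln3
  obtain ⟨-, -, nc⟩ := h.coef he0 hw1 hw2 hw3 hea ln1 ln2 ln3 lm1 lm2 lm3
  rw [← cf_symm] at nc
  refine ⟨p, q, r, t, e, √Q1, √Q2, hdet1, he1, he2, Real.sqrt_nonneg _, Real.sqrt_le_sqrt hle, ?_,
    na, nd, nb, nc⟩
  rw [← Real.sqrt_mul hQ10]
  apply Real.sqrt_le_iff.2
  refine ⟨by positivity, ?_⟩
  linarith

theorem Rts.reduce (h : Rts a b c d y1 y2 y3) (hD : cdisc a b c d ≠ 0)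
    (hirr : ∀ X Y : ℤ, cf a b c d X Y = 0 → X = 0 ∧ Y = 0) :
    ∃ (p q r t : ℤ) (e : ℝ), p * t - q * r = 1 ∧ 1 ≤ e ∧ e ^ 2 = |((cdisc a b c d : ℤ) : ℝ)| ∧
      |((cf a b c d p r : ℤ) : ℝ)| * |((cf a b c d q t : ℤ) : ℝ)| ≤ 8 * e ∧
      |((cf1 a b c d p q r t : ℤ) : ℝ)| * |((cf2 a b c d p q r t : ℤ) : ℝ)| ≤ 72 * e ∧
      |((cf1 a b c d p q r t : ℤ) : ℝ)| ≤ 12 * e ∧ |((cf2 a b c d p q r t : ℤ) : ℝ)| ≤ 12 * e ∧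
      cf a b c d p r ≠ 0 ∧ cf a b c d q t ≠ 0 := by
  have ha : a ≠ 0 := by
    rintro rfl
    have := hirr 1 0 (by unfold cf; ring)
    omega
  obtain ⟨p, q, r, t, e, g1, g2, hdet1, he1, he2, g10, hg12, hgg, na, nd, nb, nc⟩ :=
    h.reduce1 hD ha
  have g20 : 0 ≤ g2 := g10.trans hg12
  have hane : cf a b c d p r ≠ 0 := by
    intro h0
    obtain ⟨rfl, rfl⟩ := hirr p r h0
    simp at hdet1
  have hdne : cf a b c d q t ≠ 0 := by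
    intro h0
    obtain ⟨rfl, rfl⟩ := hirr q t h0
    simp at hdet1
  have ha1 : (1 : ℝ) ≤ |((cf a b c d p r : ℤ) : ℝ)| := by exact_mod_cast Int.one_le_abs hane
  obtain ⟨α, hα⟩ : ∃ x : ℝ, x = |((cf a b c d p r : ℤ) : ℝ)| := ⟨_, rfl⟩
  obtain ⟨δ, hδ⟩ : ∃ x : ℝ, x = |((cf a b c d q t : ℤ) : ℝ)| := ⟨_, rfl⟩
  obtain ⟨β, hβ⟩ : ∃ x : ℝ, x = |((cf1 a b c d p q r t : ℤ) : ℝ)| := ⟨_, rfl⟩
  obtain ⟨γ, hγ⟩ : ∃ x : ℝ, x = |((cf2 a b c d p q r t : ℤ) : ℝ)| := ⟨_, rfl⟩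
  have hα0 : 0 ≤ α := by rw [hα]; positivity
  have hδ0 : 0 ≤ δ := by rw [hδ]; positivity
  have hβ0 : 0 ≤ β := by rw [hβ]; positivity
  have hγ0 : 0 ≤ γ := by rw [hγ]; positivity
  refine ⟨p, q, r, t, e, hdet1, he1, he2, ?_⟩
  rw [← hα, ← hδ, ← hβ, ← hγ]
  rw [← hα] at na ha1
  rw [← hδ] at nd
  rw [← hβ] at nb
  rw [← hγ] at nc
  clear hα hδ hβ hγ
  have hg1one : 1 ≤ g1 := by
    by_contra hcon
    push Not at hcon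
    have h4 : g1 * g1 * g1 < 1 := by
      have h5 : g1 * g1 ≤ 1 := by nlinarith
      nlinarith
    nlinarith
  have hepos : 0 < e := by linarith
  have hg1le : g1 ≤ 2 * e := by nlinarith
  have hg2le : g2 ≤ 2 * e := by nlinarith
  have h6 : (g1 * g2) ^ 3 ≤ (2 * e) ^ 3 := pow_le_pow_left₀ (by positivity) hgg 3
  refine ⟨?_, ?_, ?_, ?_, hane, hdne⟩
  · have h4 := mul_le_mul na nd (by positivity) (by positivity)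
    have h7 : e ^ 2 * (α * δ) ≤ e ^ 2 * (8 * e) := by
      calc _ = e * α * (e * δ) := by ring
        _ ≤ _ := h4
        _ = (g1 * g2) ^ 3 := by ring
        _ ≤ _ := h6
        _ = _ := by ring
    exact le_of_mul_le_mul_left h7 (by positivity)
  · have h4 := mul_le_mul nb nc (by positivity) (by positivity)
    have h7 : e ^ 2 * (β * γ) ≤ e ^ 2 * (72 * e) := by
      calc _ = e * β * (e * γ) := by ring
        _ ≤ _ := h4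
        _ = 9 * (g1 * g2) ^ 3 := by ring
        _ ≤ 9 * (2 * e) ^ 3 := by linarith
        _ = _ := by ring
    exact le_of_mul_le_mul_left h7 (by positivity)
  · have h7 : e * β ≤ e * (12 * e) := by
      calc _ ≤ _ := nb
        _ = 3 * (g1 * (g1 * g2)) := by ring
        _ ≤ 3 * (g1 * (2 * e)) := by
            have := mul_le_mul_of_nonneg_left hgg g10
            linarith
        _ ≤ 3 * (2 * e * (2 * e)) := by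
            have := mul_le_mul_of_nonneg_right hg1le (show 0 ≤ 2 * e by positivity)
            linarith
        _ = _ := by ring
    exact le_of_mul_le_mul_left h7 hepos
  · have h7 : e * γ ≤ e * (12 * e) := by
      calc _ ≤ _ := nc
        _ = 3 * (g2 * (g1 * g2)) := by ring
        _ ≤ 3 * (g2 * (2 * e)) := by
            have := mul_le_mul_of_nonneg_left hgg g20
            linarith
        _ ≤ 3 * (2 * e * (2 * e)) := by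
            have := mul_le_mul_of_nonneg_right hg2le (show 0 ≤ 2 * e by positivity)
            linarith
        _ = _ := by ring
    exact le_of_mul_le_mul_left h7 hepos

end Pool.Agent.Q239.V
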